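import Pool.Agent.H985R3.IL.Defs
import Pool.Agent.H934R3.D74.T1
import Pool.Agent.H934R3.D74.T2

/-!
Task IL2 (helper541): one-point lower bound with arms of length `L h` in a strip of half-height `h`.
-/

set_option autoImplicit false

namespace H985IL

open H974 H985BT H934F H934E H973 H12S Finset

/-- open arm of `v` to the left and dual arm of `cface v s` to the right, of length `L h` -/
def LArm (s : Bool × Bool) (L h : ℕ) (v : Vtx) (F : Finset Edg) : Prop :=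
  (∃ y : Vtx, y.1 = v.1 - (L * h : ℕ) ∧
      Reach (↑F ∩ ↑(RE (v.1 - (L * h : ℕ)) (v.1 + h) (v.2 - h) (v.2 + h))) v y) ∧
    ∃ g : Vtx, g.1 = v.1 + (L * h : ℕ) ∧
      DReach (↑(RE (v.1 - h) (v.1 + (L * h : ℕ)) (v.2 - h) (v.2 + h) \ F) : Set Edg) (cface v s) g

namespace IL2

/-! ### crossings of long rectangles of arbitrary height -/

theorem hh_one (k : ℕ) : (1/4 : ℝ) ^ (k + 1) ≤ hh (1/2) ((k : ℤ) + 1) 1 := by
  induction k with
  | zero =>
    have := hh_square 1 (by norm_num)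
    simp only [Nat.cast_zero, zero_add, pow_one]
    linarith
  | succ k ih =>
    have h0 : (0:ℝ) ≤ 1/2 := by norm_num
    have h1 : (1/2:ℝ) ≤ 1 := by norm_num
    have g := hh_glue h0 h1 (w1 := (k : ℤ) + 1) (w2 := 2) (v := 1) (h := 1) (by norm_num)
      (by omega) (by norm_num) (by norm_num)
    have e : (k : ℤ) + 1 + 2 - 1 = ((k + 1 : ℕ) : ℤ) + 1 := by push_cast; ring
    rw [e] at g
    have a1 := hh_half 1 (by norm_num)
    have a2 := hh_square 1 (by norm_num)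
    have a3 : hh (1/2) 2 1 = 1/2 := by
      have : (1 : ℤ) + 1 = 2 := by norm_num
      rwa [this] at a1
    rw [a3] at g
    refine le_trans ?_ g
    have p1 : (0:ℝ) < (1/4)^(k + 1) := by positivity
    have p2 : (0:ℝ) ≤ hh (1/2) ((k : ℤ) + 1) 1 := p1.le.trans ih
    rw [pow_succ]
    have p3 : (1/4 : ℝ) ^ (k + 1) * (1/4) ≤ hh (1/2) ((k : ℤ) + 1) 1 * (1/4) :=
      mul_le_mul_of_nonneg_right ih (by norm_num)
    have p4 : hh (1/2) ((k : ℤ) + 1) 1 * (1/4) ≤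
        hh (1/2) ((k : ℤ) + 1) 1 * (1/2) * hh (1/2) 1 1 := by nlinarith
    exact p3.trans p4

theorem rswK (K : ℕ) : ∃ δ : ℝ, 0 < δ ∧ ∀ w n : ℤ, 0 < w → 1 ≤ n → w ≤ K * n →
    δ ≤ hh (1/2) w n := by
  refine ⟨min ((1/4 : ℝ) ^ (K + 1)) ((1/2:ℝ)^(48 * (K + 1))), by positivity, ?_⟩
  intro w n hw hn hwn
  have h0 : (0:ℝ) ≤ 1/2 := by norm_num
  have h1 : (1/2:ℝ) ≤ 1 := by norm_num
  rcases eq_or_lt_of_le hn with h | h
  · subst h
    refine (min_le_left _ _).trans ((hh_one K).trans (hh_mono h0 h1 hw ?_ le_rfl))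
    omega
  · obtain ⟨m, hm⟩ : ∃ m : ℤ, m = n / 2 := ⟨_, rfl⟩
    have hm1 : 1 ≤ m := by omega
    have hm2 : 2 * m ≤ n := by omega
    have hm3 : n ≤ 3 * m := by omega
    refine (min_le_right _ _).trans ((hh_long K (by omega : 0 < m)).trans
      (hh_mono h0 h1 hw ?_ hm2))
    have hK : (0 : ℤ) ≤ K := Int.natCast_nonneg K
    calc w ≤ K * n := hwn
      _ ≤ K * (3 * m) := mul_le_mul_of_nonneg_left hm3 hK
      _ ≤ (8 + 6 * (K : ℤ)) * m := by nlinarith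

/-! ### gluing -/

theorem glue {G G1 G2 G3 : Set Edg} {a b c d : ℤ} (hab : a < b) (hcd : c ≤ d)
    (s1 : G1 ⊆ G) (s2 : G2 ⊆ G) (s3 : G3 ⊆ G)
    (h1H : ∀ x y, ((x, y, true) : Edg) ∈ G1 → a ≤ x → x < b → c ≤ y ∧ y ≤ d)
    (h1V : ∀ x y, ((x, y, false) : Edg) ∈ G1 → a < x → x < b → c ≤ y ∧ y < d)
    (h3H : ∀ x y, ((x, y, true) : Edg) ∈ G3 → a ≤ x → x < b → c ≤ y ∧ y ≤ d)
    (h3V : ∀ x y, ((x, y, false) : Edg) ∈ G3 → a < x → x < b → c ≤ y ∧ y < d)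
    {u w u' w' : Vtx} (r1 : Reach G1 u w) (hu : u.1 ≤ a) (hw : b ≤ w.1)
    (r3 : Reach G3 u' w') (hu' : u'.1 ≤ a) (hw' : b ≤ w'.1)
    {x x' : ℤ} (hx : a ≤ x ∧ x ≤ b) (r2 : Reach (G2 ∩ ↑(TBE a b c d)) (x, c) (x', d)) :
    Reach G u u' := by
  obtain ⟨y1, y2, hy1, hy2, q1, q2⟩ := sub_LR hab h1H h1V r1 hu hw
  obtain ⟨z1, z2, hz1, hz2, p1, p2⟩ := sub_LR hab h3H h3V r3 hu' hw'
  have m0 : Reach (G ∩ ↑(TBE a b c d)) (x, c) (x', d) :=
    r2.mono (Set.inter_subset_inter_left _ s2)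
  have m1 := crossings_meet hab hcd (F := G) hy2 hx
    (q1.mono (Set.inter_subset_inter_left _ s1)) m0
  have m2 := crossings_meet hab hcd (F := G) hz2 hx
    (p1.mono (Set.inter_subset_inter_left _ s3)) m0
  exact (q2.mono s1).trans ((m1.mono Set.inter_subset_left).trans
    ((m2.mono Set.inter_subset_left).symm.trans (p2.mono s3).symm))

/-! ### the events -/

/-- arm to the left, of length `3 H` -/
def AL (H : ℤ) (v : Vtx) (F : Finset Edg) : Prop :=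
  ∃ y : Vtx, y.1 = v.1 - 3 * H ∧
    Reach (↑F ∩ ↑(RE (v.1 - 3 * H) (v.1 + H) (v.2 - H) (v.2 + H))) v y

/-- dual arm to the right, of length `3 H` -/
def AR (s : Bool × Bool) (H : ℤ) (v : Vtx) (F : Finset Edg) : Prop :=
  ∃ g : Vtx, g.1 = v.1 + 3 * H ∧
    DReach (↑(RE (v.1 - H) (v.1 + 3 * H) (v.2 - H) (v.2 + H) \ F) : Set Edg) (cface v s) g

def B1 (H : ℤ) (v : Vtx) (F : Finset Edg) : Prop :=
  TBc (v.1 - 3 * H) (v.1 - H - 1) (v.2 - H) (v.2 + H) F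

def B2 (H N : ℤ) (v : Vtx) (F : Finset Edg) : Prop :=
  LRc (v.1 - N) (v.1 - H - 1) (v.2 - H) (v.2 + H) F

noncomputable def R3 (H : ℤ) (v : Vtx) : Finset Edg :=
  LRE (v.1 + H) (v.1 + 3 * H) (v.2 - H) (v.2 + H)

noncomputable def R4 (H N : ℤ) (v : Vtx) : Finset Edg :=
  TBE (v.1 + H + 1) (v.1 + N) (v.2 - H) (v.2 + H)

def B3 (H : ℤ) (v : Vtx) (F : Finset Edg) : Prop :=
  TBc (v.1 + H) (v.1 + 3 * H - 1) (v.2 - H - 1) (v.2 + H) (dmp (R3 H v \ F))

def B4 (H N : ℤ) (v : Vtx) (F : Finset Edg) : Prop :=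
  LRc (v.1 + H) (v.1 + N) (v.2 - H) (v.2 + H - 1) (dmp (R4 H N v \ F))

theorem dmp_R3 (H : ℤ) (v : Vtx) :
    dmp (R3 H v) = TBE (v.1 + H) (v.1 + 3 * H - 1) (v.2 - H - 1) (v.2 + H) := dmp_LRE _ _ _ _

theorem dmp_R4 (H N : ℤ) (v : Vtx) :
    dmp (R4 H N v) = LRE (v.1 + H) (v.1 + N) (v.2 - H) (v.2 + H - 1) := by
  unfold R4
  rw [dmp_TBE]
  congr 1
  ring

theorem left_det {v : Vtx} {H N : ℤ} (hH : 1 ≤ H) (hN : 3 * H ≤ N) {F : Finset Edg}
    (h1 : AL H v F) (h2 : B1 H v F) (h3 : B2 H N v F) :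
    ∃ y : Vtx, y.1 = v.1 - N ∧
      Reach (↑F ∩ ↑(RE (v.1 - N) (v.1 + H) (v.2 - H) (v.2 + H))) v y := by
  obtain ⟨y, hy, r1⟩ := h1
  obtain ⟨x, x', hx, hx', r2⟩ := h2
  obtain ⟨z, z', hz, hz', r3⟩ := h3
  have s1 : (↑F ∩ ↑(RE (v.1 - 3 * H) (v.1 + H) (v.2 - H) (v.2 + H)) : Set Edg) ⊆
      ↑F ∩ ↑(RE (v.1 - N) (v.1 + H) (v.2 - H) (v.2 + H)) := by
    apply Set.inter_subset_inter_right
    rintro ⟨x, y, _ | _⟩ h
    · simp only [mem_coe, mem_RE_false] at h ⊢; omega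
    · simp only [mem_coe, mem_RE_true] at h ⊢; omega
  have s2 : (↑F ∩ ↑(TBE (v.1 - 3 * H) (v.1 - H - 1) (v.2 - H) (v.2 + H)) : Set Edg) ⊆
      ↑F ∩ ↑(RE (v.1 - N) (v.1 + H) (v.2 - H) (v.2 + H)) := by
    apply Set.inter_subset_inter_right
    rintro ⟨x, y, _ | _⟩ h
    · simp only [mem_coe, mem_TBE_false, mem_RE_false] at h ⊢; omega
    · simp only [mem_coe, mem_TBE_true, mem_RE_true] at h ⊢; omega
  have s3 : (↑F ∩ ↑(LRE (v.1 - N) (v.1 - H - 1) (v.2 - H) (v.2 + H)) : Set Edg) ⊆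
      ↑F ∩ ↑(RE (v.1 - N) (v.1 + H) (v.2 - H) (v.2 + H)) := by
    apply Set.inter_subset_inter_right
    rintro ⟨x, y, _ | _⟩ h
    · simp only [mem_coe, mem_LRE_false, mem_RE_false] at h ⊢; omega
    · simp only [mem_coe, mem_LRE_true, mem_RE_true] at h ⊢; omega
  refine ⟨(v.1 - N, z), rfl, (r1.mono s1).trans ?_⟩
  have r2' : Reach ((↑F ∩ ↑(TBE (v.1 - 3 * H) (v.1 - H - 1) (v.2 - H) (v.2 + H)) : Set Edg) ∩
      ↑(TBE (v.1 - 3 * H) (v.1 - H - 1) (v.2 - H) (v.2 + H))) (x, v.2 - H) (x', v.2 + H) :=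
    r2.mono (Set.subset_inter Set.Subset.rfl Set.inter_subset_right)
  refine glue (a := v.1 - 3 * H) (b := v.1 - H - 1) (c := v.2 - H) (d := v.2 + H)
    (G2 := (↑F ∩ ↑(TBE (v.1 - 3 * H) (v.1 - H - 1) (v.2 - H) (v.2 + H)) : Set Edg))
    (by omega) (by omega) s1 s2 s3 ?_ ?_ ?_ ?_ r1.symm (by omega) (by omega) r3
    (by simp only; omega) (by simp only; omega) hx r2'
  · intro x y h _ _
    have h := h.2
    simp only [mem_coe, mem_RE_true] at h; omega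
  · intro x y h _ _
    have h := h.2
    simp only [mem_coe, mem_RE_false] at h; omega
  · intro x y h _ _
    have h := h.2
    simp only [mem_coe, mem_LRE_true] at h; omega
  · intro x y h _ _
    have h := h.2
    simp only [mem_coe, mem_LRE_false] at h; omega

theorem right_det {v : Vtx} {s : Bool × Bool} {H N : ℤ} (hH : 1 ≤ H) (hN : 3 * H ≤ N)
    {F : Finset Edg} (h1 : AR s H v F) (h2 : B3 H v F) (h3 : B4 H N v F) :
    ∃ g : Vtx, g.1 = v.1 + N ∧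
      DReach (↑(RE (v.1 - H) (v.1 + N) (v.2 - H) (v.2 + H) \ F) : Set Edg) (cface v s) g := by
  obtain ⟨g, hg, r1⟩ := h1
  obtain ⟨x, x', hx, hx', r2⟩ := h2
  obtain ⟨z, z', hz, hz', r3⟩ := h3
  rw [← reach_dl, ← coe_dmp] at r1
  have t1 : RE (v.1 - H) (v.1 + 3 * H) (v.2 - H) (v.2 + H) \ F ⊆
      RE (v.1 - H) (v.1 + N) (v.2 - H) (v.2 + H) \ F := by
    apply Finset.sdiff_subset_sdiff _ (Finset.Subset.refl _)
    rintro ⟨x, y, _ | _⟩ h
    · simp only [mem_RE_false] at h ⊢; omega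
    · simp only [mem_RE_true] at h ⊢; omega
  have t2 : R3 H v \ F ⊆ RE (v.1 - H) (v.1 + N) (v.2 - H) (v.2 + H) \ F := by
    apply Finset.sdiff_subset_sdiff _ (Finset.Subset.refl _)
    unfold R3
    rintro ⟨x, y, _ | _⟩ h
    · simp only [mem_LRE_false, mem_RE_false] at h ⊢; omega
    · simp only [mem_LRE_true, mem_RE_true] at h ⊢; omega
  have t3 : R4 H N v \ F ⊆ RE (v.1 - H) (v.1 + N) (v.2 - H) (v.2 + H) \ F := by
    apply Finset.sdiff_subset_sdiff _ (Finset.Subset.refl _)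
    unfold R4
    rintro ⟨x, y, _ | _⟩ h
    · simp only [mem_TBE_false, mem_RE_false] at h ⊢; omega
    · simp only [mem_TBE_true, mem_RE_true] at h ⊢; omega
  have hmono : ∀ {A B : Finset Edg}, A ⊆ B → (↑(dmp A) : Set Edg) ⊆ ↑(dmp B) := by
    intro A B h
    rw [coe_dmp, coe_dmp]
    exact Set.image_mono (by exact_mod_cast h)
  have s3 : (↑(dmp (R4 H N v \ F)) ∩ ↑(LRE (v.1 + H) (v.1 + N) (v.2 - H) (v.2 + H - 1)) : Set Edg) ⊆
      ↑(dmp (RE (v.1 - H) (v.1 + N) (v.2 - H) (v.2 + H) \ F)) :=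
    Set.inter_subset_left.trans (hmono t3)
  refine ⟨(v.1 + N, z'), rfl, ?_⟩
  rw [← reach_dl, ← coe_dmp]
  refine Reach.trans ?_ (r3.mono s3)
  have hcf : (cface v s).1 ≤ v.1 + H := by
    unfold cface
    split_ifs <;> simp only <;> omega
  refine glue (a := v.1 + H) (b := v.1 + 3 * H - 1) (c := v.2 - H - 1) (d := v.2 + H)
    (by omega) (by omega) (hmono t1) (hmono t2) s3 ?_ ?_ ?_ ?_ r1 hcf (by omega) r3
    (by simp only; omega) (by simp only; omega) hx r2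
  · intro x y h _ _
    rw [mem_coe, mem_dmp] at h
    have h := (Finset.mem_sdiff.1 h).1
    rw [dls_t] at h
    simp only [mem_RE_false] at h; omega
  · intro x y h _ _
    rw [mem_coe, mem_dmp] at h
    have h := (Finset.mem_sdiff.1 h).1
    rw [dls_f] at h
    simp only [mem_RE_true] at h; omega
  · intro x y h _ _
    have h := h.2
    simp only [mem_coe, mem_LRE_true] at h; omega
  · intro x y h _ _
    have h := h.2
    simp only [mem_coe, mem_LRE_false] at h; omega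

/-! ### locality and monotonicity -/

/-- edges on the left -/
noncomputable def RL (H N : ℤ) (v : Vtx) : Finset Edg := RE (v.1 - N) (v.1 + H) (v.2 - H) (v.2 + H)

/-- edges on the right -/
noncomputable def RRt (H N : ℤ) (v : Vtx) : Finset Edg := RE (v.1 - H) (v.1 + N) (v.2 - H) (v.2 + H)

noncomputable def UL (H N : ℤ) (v : Vtx) : Finset Edg :=
  RE (v.1 - N) (v.1 - H - 1) (v.2 - H) (v.2 + H)

noncomputable def UR (H N : ℤ) (v : Vtx) : Finset Edg := R3 H v ∪ R4 H N v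

theorem sd_inter {R T F : Finset Edg} (h : R ⊆ T) : R \ F = R \ (F ∩ T) := by
  ext e
  simp only [Finset.mem_sdiff, Finset.mem_inter]
  constructor
  · rintro ⟨h1, h2⟩; exact ⟨h1, fun h3 => h2 h3.1⟩
  · rintro ⟨h1, h2⟩; exact ⟨h1, fun h3 => h2 ⟨h3, h h1⟩⟩

theorem AL_local {H N : ℤ} (hN : 3 * H ≤ N) (v : Vtx) (F : Finset Edg) :
    AL H v F ↔ AL H v (F ∩ RL H N v) := by
  have s1 : RE (v.1 - 3 * H) (v.1 + H) (v.2 - H) (v.2 + H) ⊆ RL H N v := by
    unfold RL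
    rintro ⟨x, y, _ | _⟩ h
    · simp only [mem_RE_false] at h ⊢; omega
    · simp only [mem_RE_true] at h ⊢; omega
  unfold AL
  rw [coe_inter_eq s1]

theorem B1_local {H N : ℤ} (hH : 1 ≤ H) (hN : 3 * H ≤ N) (v : Vtx) {T : Finset Edg}
    (hT : UL H N v ⊆ T) (F : Finset Edg) : B1 H v F ↔ B1 H v (F ∩ T) := by
  apply TBc_local
  refine Finset.Subset.trans ?_ hT
  unfold UL
  rintro ⟨x, y, _ | _⟩ h
  · simp only [mem_TBE_false, mem_RE_false] at h ⊢; omega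
  · simp only [mem_TBE_true, mem_RE_true] at h ⊢; omega

theorem B2_local {H N : ℤ} (v : Vtx) {T : Finset Edg}
    (hT : UL H N v ⊆ T) (F : Finset Edg) : B2 H N v F ↔ B2 H N v (F ∩ T) := by
  apply LRc_local
  exact Finset.Subset.trans LRE_subset_RE hT

theorem AR_local {s : Bool × Bool} {H N : ℤ} (hN : 3 * H ≤ N) (v : Vtx) (F : Finset Edg) :
    AR s H v F ↔ AR s H v (F ∩ RRt H N v) := by
  have s1 : RE (v.1 - H) (v.1 + 3 * H) (v.2 - H) (v.2 + H) ⊆ RRt H N v := by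
    unfold RRt
    rintro ⟨x, y, _ | _⟩ h
    · simp only [mem_RE_false] at h ⊢; omega
    · simp only [mem_RE_true] at h ⊢; omega
  unfold AR
  rw [← sd_inter s1]

theorem B3_local {H : ℤ} (v : Vtx) {T : Finset Edg} (hT : R3 H v ⊆ T) (F : Finset Edg) :
    B3 H v F ↔ B3 H v (F ∩ T) := by
  unfold B3
  rw [← sd_inter hT]

theorem B4_local {H N : ℤ} (v : Vtx) {T : Finset Edg} (hT : R4 H N v ⊆ T) (F : Finset Edg) :
    B4 H N v F ↔ B4 H N v (F ∩ T) := by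
  unfold B4
  rw [← sd_inter hT]

theorem UL_RL {H N : ℤ} (hH : 1 ≤ H) (v : Vtx) : UL H N v ⊆ RL H N v := by
  unfold UL RL
  rintro ⟨x, y, _ | _⟩ h
  · simp only [mem_RE_false] at h ⊢; omega
  · simp only [mem_RE_true] at h ⊢; omega

theorem dmp_anti {R F G : Finset Edg} (h : F ⊆ G) : dmp (R \ G) ⊆ dmp (R \ F) := by
  intro e he
  rw [mem_dmp, Finset.mem_sdiff] at he ⊢
  exact ⟨he.1, fun h2 => he.2 (h h2)⟩

theorem B3_anti {H : ℤ} {v : Vtx} {F G : Finset Edg} (h : F ⊆ G) (hG : B3 H v G) : B3 H v F :=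
  TBc.mono (dmp_anti h) hG

theorem B4_anti {H N : ℤ} {v : Vtx} {F G : Finset Edg} (h : F ⊆ G) (hG : B4 H N v G) :
    B4 H N v F := LRc.mono (dmp_anti h) hG

theorem AL_mono {H : ℤ} {v : Vtx} {F G : Finset Edg} (h : F ⊆ G) (hF : AL H v F) : AL H v G := by
  obtain ⟨y, hy, hr⟩ := hF
  exact ⟨y, hy, hr.mono (Set.inter_subset_inter_left _ (by exact_mod_cast h))⟩

theorem AR_anti {s : Bool × Bool} {H : ℤ} {v : Vtx} {F G : Finset Edg} (h : F ⊆ G)
    (hG : AR s H v G) : AR s H v F := by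
  obtain ⟨g, hg, hr⟩ := hG
  refine ⟨g, hg, hr.mono ?_⟩
  exact_mod_cast Finset.sdiff_subset_sdiff (Finset.Subset.refl _) h

theorem UL_disj {H N : ℤ} (v : Vtx) {e : Edg} (h : e ∈ UL H N v) : e ∉ RRt H N v := by
  unfold UL at h
  unfold RRt
  obtain ⟨x, y, _ | _⟩ := e
  · simp only [mem_RE_false] at h ⊢; omega
  · simp only [mem_RE_true] at h ⊢; omega

theorem UR_disj {H N : ℤ} (v : Vtx) {e : Edg} (h : e ∈ UR H N v) : e ∉ RL H N v := by
  unfold UR R3 R4 at h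
  unfold RL
  rw [Finset.mem_union] at h
  obtain ⟨x, y, _ | _⟩ := e
  · simp only [mem_LRE_false, mem_TBE_false, mem_RE_false] at h ⊢; omega
  · simp only [mem_LRE_true, mem_TBE_true, mem_RE_true] at h ⊢; omega

/-! ### probabilities of the crossings -/

theorem pr_B1 {H : ℤ} (v : Vtx) {S : Finset Edg}
    (hS : TBE (v.1 - 3 * H) (v.1 - H - 1) (v.2 - H) (v.2 + H) ⊆ S) :
    Q S (B1 H v) = hh (1/2) (2 * H) (2 * H - 1) := by
  have h := pr_TBc (1/2) hS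
  have e1 : v.2 + H - (v.2 - H) = 2 * H := by ring
  have e2 : v.1 - H - 1 - (v.1 - 3 * H) = 2 * H - 1 := by ring
  rw [e1, e2] at h
  exact h

theorem pr_B2 {H N : ℤ} (v : Vtx) {S : Finset Edg}
    (hS : LRE (v.1 - N) (v.1 - H - 1) (v.2 - H) (v.2 + H) ⊆ S) :
    Q S (B2 H N v) = hh (1/2) (N - H - 1) (2 * H) := by
  have h := pr_LRc (1/2) hS
  have e1 : v.2 + H - (v.2 - H) = 2 * H := by ring
  have e2 : v.1 - H - 1 - (v.1 - N) = N - H - 1 := by ring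
  rw [e1, e2] at h
  exact h

theorem pr_dual {R S : Finset Edg} (hR : R ⊆ S) (A : Finset Edg → Prop) :
    Q S (fun F => A (dmp (R \ F))) = Pr (fun _ => (1/2 : ℝ)) (dmp R) A := by
  have h1 : Q S (fun F => A (dmp (R \ F))) = Q R (fun F => A (dmp (R \ F))) := by
    apply Pr_local hR
    intro F _
    rw [← sd_inter (Finset.Subset.refl R)]
  rw [h1, pr_dmp]
  have h2 := Pr_compl (fun _ : Edg => (1/2 : ℝ)) R (fun F => A (dmp F))
  have e1 : (fun _ : Edg => (1 : ℝ) - 1/2) = fun _ => (1/2 : ℝ) := by funext; norm_num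
  rw [e1] at h2
  exact h2.symm

theorem pr_B3 {H : ℤ} (v : Vtx) {S : Finset Edg} (hS : R3 H v ⊆ S) :
    Q S (B3 H v) = hh (1/2) (2 * H + 1) (2 * H - 1) := by
  have h0 := pr_dual hS (TBc (v.1 + H) (v.1 + 3 * H - 1) (v.2 - H - 1) (v.2 + H))
  have h : Pr (fun _ => (1/2 : ℝ)) (dmp (R3 H v))
      (TBc (v.1 + H) (v.1 + 3 * H - 1) (v.2 - H - 1) (v.2 + H)) =
      hh (1/2) (v.2 + H - (v.2 - H - 1)) (v.1 + 3 * H - 1 - (v.1 + H)) := by
    rw [dmp_R3]
    exact pr_TBc (1/2) (Finset.Subset.refl _)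
  have e1 : v.2 + H - (v.2 - H - 1) = 2 * H + 1 := by ring
  have e2 : v.1 + 3 * H - 1 - (v.1 + H) = 2 * H - 1 := by ring
  rw [e1, e2] at h
  exact h0.trans h

theorem pr_B4 {H N : ℤ} (v : Vtx) {S : Finset Edg} (hS : R4 H N v ⊆ S) :
    Q S (B4 H N v) = hh (1/2) (N - H) (2 * H - 1) := by
  have h0 := pr_dual hS (LRc (v.1 + H) (v.1 + N) (v.2 - H) (v.2 + H - 1))
  have h : Pr (fun _ => (1/2 : ℝ)) (dmp (R4 H N v))
      (LRc (v.1 + H) (v.1 + N) (v.2 - H) (v.2 + H - 1)) =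
      hh (1/2) (v.1 + N - (v.1 + H)) (v.2 + H - 1 - (v.2 - H)) := by
    rw [dmp_R4]
    exact pr_LRc (1/2) (Finset.Subset.refl _)
  have e1 : v.2 + H - 1 - (v.2 - H) = 2 * H - 1 := by ring
  have e2 : v.1 + N - (v.1 + H) = N - H := by ring
  rw [e1, e2] at h
  exact h0.trans h

/-! ### the arms of length `3 h` -/

theorem tr_arms {s : Bool × Bool} {m : ℕ} (v : Vtx) {F : Finset Edg} (hF : SepArms s m F) :
    AL m v ((trl v.1 v.2).mp F) ∧ AR s m v ((trl v.1 v.2).mp F) := by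
  obtain ⟨⟨y, hy, hr⟩, ⟨g, hg, hd⟩⟩ := hF
  push_cast at hy hr hg hd
  constructor
  · refine ⟨(trl v.1 v.2).ψ y, ?_, ?_⟩
    · obtain ⟨y1, y2⟩ := y
      rw [trl_ψ]
      simp only at hy ⊢
      rw [hy]; ring
    · have h1 := (trl v.1 v.2).reach hr
      rw [LSym.image_inter, trl_RE] at h1
      have e1 : -(3 * (m : ℤ)) + v.1 = v.1 - 3 * m := by ring
      have e2 : (m : ℤ) + v.1 = v.1 + m := by ring
      have e3 : -(m : ℤ) + v.2 = v.2 - m := by ring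
      have e4 : (m : ℤ) + v.2 = v.2 + m := by ring
      have e5 : (trl v.1 v.2).ψ (0, 0) = v := by simp
      rw [e1, e2, e3, e4, e5] at h1
      exact h1
  · refine ⟨(trl v.1 v.2).ψ g, ?_, ?_⟩
    · obtain ⟨y1, y2⟩ := g
      rw [trl_ψ]
      simp only at hg ⊢
      rw [hg]; ring
    · have h1 := t2_dreach v.1 v.2 hd
      rw [← Finset.coe_sdiff, ← LSym.coe_mp, LSym.mp_sdiff, trl_RE, t2_cface] at h1
      have e1 : 3 * (m : ℤ) + v.1 = v.1 + 3 * m := by ring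
      have e2 : -(m : ℤ) + v.1 = v.1 - m := by ring
      have e3 : -(m : ℤ) + v.2 = v.2 - m := by ring
      have e4 : (m : ℤ) + v.2 = v.2 + m := by ring
      rw [e1, e2, e3, e4] at h1
      exact h1

theorem pr_arms {s : Bool × Bool} {m : ℕ} {N : ℤ} (hN : 3 * (m : ℤ) ≤ N)
    (v : Vtx) {S : Finset Edg} (hS : RE (v.1 - N) (v.1 + N) (v.2 - m) (v.2 + m) ⊆ S) :
    PQ (1/2) (RE (-(3 * m : ℕ)) (3 * m : ℕ) (-(m : ℕ)) (m : ℕ)) (SepArms s m) ≤
      Q S (fun F => AL m v F ∧ AR s m v F) := by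
  obtain ⟨T, hT⟩ : ∃ T, T = RE (v.1 - 3 * m) (v.1 + 3 * m) (v.2 - m) (v.2 + m) := ⟨_, rfl⟩
  have hTS : T ⊆ S := by
    refine Finset.Subset.trans ?_ hS
    rw [hT]
    rintro ⟨x, y, _ | _⟩ h
    · simp only [mem_RE_false] at h ⊢; omega
    · simp only [mem_RE_true] at h ⊢; omega
  have e1 : Q S (fun F => AL m v F ∧ AR s m v F) = Q T (fun F => AL m v F ∧ AR s m v F) := by
    apply Pr_local hTS
    intro F _
    have s1 : RE (v.1 - 3 * m) (v.1 + m) (v.2 - m) (v.2 + m) ⊆ T := by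
      rw [hT]
      rintro ⟨x, y, _ | _⟩ h
      · simp only [mem_RE_false] at h ⊢; omega
      · simp only [mem_RE_true] at h ⊢; omega
    have s2 : RE (v.1 - m) (v.1 + 3 * m) (v.2 - m) (v.2 + m) ⊆ T := by
      rw [hT]
      rintro ⟨x, y, _ | _⟩ h
      · simp only [mem_RE_false] at h ⊢; omega
      · simp only [mem_RE_true] at h ⊢; omega
    unfold AL AR
    rw [coe_inter_eq s1, ← sd_inter s2]
  have e2 : T = (trl v.1 v.2).mp (RE (-(3 * m : ℕ)) (3 * m : ℕ) (-(m : ℕ)) (m : ℕ)) := by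
    rw [trl_RE, hT]
    push_cast
    congr 1 <;> ring
  rw [e1, e2]
  unfold Q
  rw [LSym.pr]
  exact Pr_mono okhalf (fun F _ hF => tr_arms v hF)

end IL2

open IL2 in
theorem long_arms (hL : St_L) (L : ℕ) (h3 : 3 ≤ L) : ∃ (c : ℝ) (s : Bool × Bool), 0 < c ∧
    ∀ h : ℕ, 1 ≤ h → ∀ (v : Vtx) (S : Finset Edg),
    RE (v.1 - (L * h : ℕ)) (v.1 + (L * h : ℕ)) (v.2 - h) (v.2 + h) ⊆ S →
    c * (h : ℝ) ^ (-(1/4) : ℝ) ≤ Pr (fun _ => (1/2 : ℝ)) S (LArm s L h v) := by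
  obtain ⟨c, s, hc, hLs⟩ := hL
  obtain ⟨δ, hδ, hrsw⟩ := rswK (L + 3)
  refine ⟨c * (δ * δ) * (δ * δ), s, by positivity, ?_⟩
  intro h hh1 v S hS
  obtain ⟨N, hNdef⟩ : ∃ N : ℤ, N = ((L * h : ℕ) : ℤ) := ⟨_, rfl⟩
  have hN2 : N = (L : ℤ) * h := by rw [hNdef]; push_cast; ring
  have hH : (1 : ℤ) ≤ h := by exact_mod_cast hh1
  have hL3 : (3 : ℤ) ≤ L := by exact_mod_cast h3
  have hN : 3 * (h : ℤ) ≤ N := by rw [hN2]; nlinarith
  rw [← hNdef] at hS
  -- inclusions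
  have i1 : UL h N v ⊆ S := by
    refine Finset.Subset.trans ?_ hS
    unfold UL
    rintro ⟨x, y, _ | _⟩ h
    · simp only [mem_RE_false] at h ⊢; omega
    · simp only [mem_RE_true] at h ⊢; omega
  have i3 : R3 h v ⊆ S := by
    refine Finset.Subset.trans ?_ hS
    unfold R3
    rintro ⟨x, y, _ | _⟩ h
    · simp only [mem_LRE_false, mem_RE_false] at h ⊢; omega
    · simp only [mem_LRE_true, mem_RE_true] at h ⊢; omega
  have i4 : R4 h N v ⊆ S := by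
    refine Finset.Subset.trans ?_ hS
    unfold R4
    rintro ⟨x, y, _ | _⟩ h
    · simp only [mem_TBE_false, mem_RE_false] at h ⊢; omega
    · simp only [mem_TBE_true, mem_RE_true] at h ⊢; omega
  have i2 : UR h N v ⊆ S := Finset.union_subset i3 i4
  -- crossings
  have hw0 : (0 : ℤ) ≤ L := by omega
  have b1 : δ ≤ Q S (B1 h v) := by
    rw [pr_B1 v (Finset.Subset.trans ?_ i1)]
    · apply hrsw _ _ (by omega) (by omega)
      push_cast
      nlinarith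
    · unfold UL
      rintro ⟨x, y, _ | _⟩ h
      · simp only [mem_TBE_false, mem_RE_false] at h ⊢; omega
      · simp only [mem_TBE_true, mem_RE_true] at h ⊢; omega
  have b2 : δ ≤ Q S (B2 h N v) := by
    rw [pr_B2 v (Finset.Subset.trans LRE_subset_RE i1)]
    apply hrsw _ _ (by omega) (by omega)
    push_cast
    rw [hN2]
    nlinarith
  have b3 : δ ≤ Q S (B3 h v) := by
    rw [pr_B3 v i3]
    apply hrsw _ _ (by omega) (by omega)
    push_cast
    nlinarith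
  have b4 : δ ≤ Q S (B4 h N v) := by
    rw [pr_B4 v i4]
    apply hrsw _ _ (by omega) (by omega)
    push_cast
    rw [hN2]
    nlinarith
  -- Harris on each side
  have q12 : δ * δ ≤ Q S (fun F => B1 h v F ∧ B2 h N v F) := by
    refine le_trans ?_ (Pr_harris okhalf (S := S) (A := B1 h v) (B := B2 h N v)
      (TBc_incr _ _ _ _ _) (LRc_incr _ _ _ _ _))
    exact mul_le_mul b1 b2 hδ.le (Q_nonneg _ _)
  have q34 : δ * δ ≤ Q S (fun F => B3 h v F ∧ B4 h N v F) := by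
    refine le_trans ?_ (t1_decr (U := S) (A := B3 h v) (B := B4 h N v) ?_ ?_)
    · exact mul_le_mul b3 b4 hδ.le (Q_nonneg _ _)
    · intro F G hFG _ hF hG
      exact hF (B3_anti hFG hG)
    · intro F G hFG _ hF hG
      exact hF (B4_anti hFG hG)
  -- arms
  have a0 := (hLs h hh1).trans (pr_arms (s := s) hN v hS)
  -- step 1
  have s1 := t1a S (UL h N v) (fun F => AL h v F ∧ AR s h v F)
    (fun F => B1 h v F ∧ B2 h N v F) i1 (by
      rintro F G _ hFG hGF ⟨h1, h2⟩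
      refine ⟨AL_mono hFG h1, ?_⟩
      rw [AR_local hN] at h2 ⊢
      have : G ∩ RRt h N v = F ∩ RRt h N v := by
        ext e
        simp only [Finset.mem_inter]
        constructor
        · rintro ⟨h3, h4⟩
          refine ⟨?_, h4⟩
          rcases Finset.mem_union.1 (hGF h3) with h5 | h5
          · exact h5
          · exact absurd h4 (UL_disj v h5)
        · rintro ⟨h3, h4⟩
          exact ⟨hFG h3, h4⟩
      rw [this]
      exact h2)
    (by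
      rintro F G hFG ⟨h1, h2⟩
      exact ⟨TBc.mono hFG h1, LRc.mono hFG h2⟩)
    (by
      intro F
      exact and_congr (B1_local hH hN v (Finset.Subset.refl _) F)
        (B2_local v (Finset.Subset.refl _) F))
  -- step 2
  have s2 := t1b S (UR h N v)
    (fun F => (AL h v F ∧ AR s h v F) ∧ (B1 h v F ∧ B2 h N v F))
    (fun F => B3 h v F ∧ B4 h N v F) i2 (by
      rintro F G _ hGF hFG ⟨⟨h1, h2⟩, h3, h4⟩
      have hRL : G ∩ RL h N v = F ∩ RL h N v := by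
        ext e
        simp only [Finset.mem_inter]
        constructor
        · rintro ⟨h3, h4⟩
          exact ⟨hGF h3, h4⟩
        · rintro ⟨h3, h4⟩
          refine ⟨?_, h4⟩
          rcases Finset.mem_union.1 (hFG h3) with h5 | h5
          · exact h5
          · exact absurd h4 (UR_disj v h5)
      refine ⟨⟨?_, AR_anti hGF h2⟩, ?_, ?_⟩
      · rw [AL_local hN] at h1 ⊢
        rw [hRL]; exact h1
      · rw [B1_local hH hN v (UL_RL hH v)] at h3 ⊢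
        rw [hRL]; exact h3
      · rw [B2_local v (UL_RL hH v)] at h4 ⊢
        rw [hRL]; exact h4)
    (by
      rintro F G hFG ⟨h1, h2⟩
      exact ⟨B3_anti hFG h1, B4_anti hFG h2⟩)
    (by
      intro F
      exact and_congr (B3_local v Finset.subset_union_left F)
        (B4_local v Finset.subset_union_right F))
  -- conclusion
  have hfin : Q S (fun F => ((AL h v F ∧ AR s h v F) ∧ (B1 h v F ∧ B2 h N v F)) ∧
      (B3 h v F ∧ B4 h N v F)) ≤ Q S (LArm s L h v) := by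
    apply Q_mono
    rintro F _ ⟨⟨⟨h1, h2⟩, h3, h4⟩, h5, h6⟩
    have hl := left_det hH hN h1 h3 h4
    have hr := right_det hH hN h2 h5 h6
    unfold LArm
    rw [← hNdef]
    exact ⟨hl, hr⟩
  refine le_trans ?_ hfin
  refine le_trans ?_ s2
  have hpos : 0 ≤ c * (h : ℝ) ^ (-(1/4) : ℝ) := by positivity
  have t1 : c * (h : ℝ) ^ (-(1/4) : ℝ) * (δ * δ) ≤
      Q S (fun F => (AL h v F ∧ AR s h v F) ∧ (B1 h v F ∧ B2 h N v F)) :=
    (mul_le_mul a0 q12 (by positivity) (Q_nonneg _ _)).trans s1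
  have t2 := mul_le_mul t1 q34 (by positivity) (Q_nonneg S _)
  calc c * (δ * δ) * (δ * δ) * (h : ℝ) ^ (-(1/4) : ℝ)
      = c * (h : ℝ) ^ (-(1/4) : ℝ) * (δ * δ) * (δ * δ) := by ring
    _ ≤ _ := t2

end H985IL
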