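import Pool.Agent.H985R2.BTDefs
import Pool.Agent.H934R2.Expl.Model

/-!
# The length of the interface of the critical random-cluster model in a rectangle
-/

set_option autoImplicit false

namespace H985IL

open H974 H985BT Finset

/-- the length of the interface: the number of its medial edges -/
noncomputable def len (m k : ℕ) (ω : Finset Edg) : ℕ := (Interface m k ω).ncard

/-- expectation in the critical random-cluster model -/
noncomputable def rcE (q : ℝ) (m k : ℕ) (f : Finset Edg → ℝ) : ℝ :=
  (∑ ω ∈ (bulk m k).powerset, weight q m k ω * f ω) / ∑ ω ∈ (bulk m k).powerset, weight q m k ω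

/-- the vertices of the rectangle -/
noncomputable def rect (m k : ℕ) : Finset Vtx := Finset.Icc (0 : ℤ) m ×ˢ Finset.Icc (0 : ℤ) k

/-- the medial edge between `v` and `cface v s` belongs to the interface -/
def On (m k : ℕ) (v : Vtx) (s : Bool × Bool) (ω : Finset Edg) : Prop :=
  InWired m k ω v ∧ InFree m k ω (H934E.cface v s)

end H985IL
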