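import Pool.Agent.H985R3.IL.Defs
import Pool.Agent.H985R2.BT7

/-!
Length of the interface, part IL0 (helper36): the length as a double sum; the case `q = 1`;
transposition.
-/

set_option autoImplicit false

namespace H985IL

open H974 H985BT H934E Finset

theorem IL0_cface_inj {v : Vtx} {s s' : Bool × Bool} (h : cface v s = cface v s') : s = s' := by
  obtain ⟨a, b⟩ := s
  obtain ⟨a', b'⟩ := s'
  unfold cface at h
  rw [Prod.mk.injEq] at h
  obtain ⟨h1, h2⟩ := h
  cases a <;> cases a' <;> cases b <;> cases b' <;> simp at h1 h2 ⊢ <;> omega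

theorem IL0_mem_rect {m k : ℕ} {v : Vtx} :
    v ∈ rect m k ↔ (0 ≤ v.1 ∧ v.1 ≤ m) ∧ (0 ≤ v.2 ∧ v.2 ≤ k) := by
  unfold rect
  rw [Finset.mem_product, Finset.mem_Icc, Finset.mem_Icc]

theorem IL0_reach {m k : ℕ} {F : Set Edg} (hF : ∀ e ∈ F, e ∈ RE 0 m 0 k) {v : Vtx}
    (h : Reach F (0, 0) v) : v ∈ rect m k := by
  induction h with
  | refl => rw [IL0_mem_rect]; simp
  | tail _ hs _ =>
    obtain ⟨e, he, hc⟩ := hs
    have h1 := hF e he
    obtain ⟨x, y, _ | _⟩ := e
    · rw [mem_RE_false] at h1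
      simp only [src_mk, tgt_false] at hc
      rw [IL0_mem_rect]
      rcases hc with ⟨_, rfl⟩ | ⟨rfl, _⟩
      · simp only; omega
      · simp only; omega
    · rw [mem_RE_true] at h1
      simp only [src_mk, tgt_true] at hc
      rw [IL0_mem_rect]
      rcases hc with ⟨_, rfl⟩ | ⟨rfl, _⟩
      · simp only; omega
      · simp only; omega

theorem IL0_wired_mem {m k : ℕ} {ω : Finset Edg} (hω : ω ⊆ bulk m k) {v : Vtx}
    (h : InWired m k ω v) : v ∈ rect m k := by
  refine IL0_reach (F := ↑ω ∪ ↑(wired m k)) ?_ h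
  rintro e (he | he)
  · exact bulk_sub m k (hω he)
  · exact wired_sub m k he

theorem len_eq {m k : ℕ} {ω : Finset Edg} (hω : ω ⊆ bulk m k) :
    (len m k ω : ℝ) = ∑ v ∈ rect m k, ∑ s : Bool × Bool, ind (On m k v s ω) := by
  classical
  have h1 : Interface m k ω = ↑(((rect m k ×ˢ (Finset.univ : Finset (Bool × Bool))).filter
      (fun p => On m k p.1 p.2 ω)).image (fun p => (p.1, cface p.1 p.2))) := by
    ext ⟨v, f⟩
    simp only [Interface, Set.mem_ofPred_eq, Finset.coe_image, Finset.coe_filter, Set.mem_image,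
      Finset.mem_product, Finset.mem_univ, and_true, On, Prod.mk.injEq]
    constructor
    · rintro ⟨h2, h3, h4, h5⟩
      have hf : f = cface v (decide (f.1 = v.1), decide (f.2 = v.2)) := by
        unfold cface
        ext
        · by_cases h : f.1 = v.1
          · simp [h]
          · simp only [h, decide_false, Bool.false_eq_true, if_false]
            rcases h2 with h2 | h2
            · exact absurd h2 h
            · exact h2
        · by_cases h : f.2 = v.2
          · simp [h]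
          · simp only [h, decide_false, Bool.false_eq_true, if_false]
            rcases h3 with h3 | h3
            · exact absurd h3 h
            · exact h3
      refine ⟨(v, decide (f.1 = v.1), decide (f.2 = v.2)), ⟨IL0_wired_mem hω h4, h4, ?_⟩, rfl,
        hf.symm⟩
      rw [← hf]; exact h5
    · rintro ⟨⟨a, s1, s2⟩, ⟨_, h4, h5⟩, rfl, rfl⟩
      refine ⟨?_, ?_, h4, h5⟩
      · cases s1 <;> simp [cface]
      · cases s2 <;> simp [cface]
  unfold len
  rw [h1, Set.ncard_coe_finset, Finset.card_image_of_injOn, Finset.card_eq_sum_ones, Nat.cast_sum,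
    Finset.sum_filter, Finset.sum_product]
  · refine Finset.sum_congr rfl fun v _ => Finset.sum_congr rfl fun s _ => ?_
    unfold ind
    split_ifs <;> simp
  · rintro ⟨v, s⟩ _ ⟨v', s'⟩ _ h
    simp only [Prod.mk.injEq] at h
    obtain ⟨rfl, h⟩ := h
    rw [IL0_cface_inj h]

theorem rcE_one (m k : ℕ) (f : Finset Edg → ℝ) :
    rcE 1 m k f = Ex (fun _ => (1/2 : ℝ)) (bulk m k) f := by
  have hw : ∀ ω, weight 1 m k ω = 1 := by
    intro ω
    unfold weight
    rw [Real.sqrt_one, one_pow, one_pow, one_mul]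
  unfold rcE Ex
  simp only [hw, one_mul, Finset.sum_const, nsmul_eq_mul, mul_one]
  have h1 : ∀ F ∈ (bulk m k).powerset, (∏ _e ∈ F, (1/2 : ℝ)) * (∏ _e ∈ bulk m k \ F, (1 - 1/2 : ℝ)) *
      f F = (1/2 : ℝ) ^ (bulk m k).card * f F := by
    intro F hF
    rw [Finset.mem_powerset] at hF
    rw [Finset.prod_const, Finset.prod_const, Finset.card_sdiff_of_subset hF]
    have h2 : (1 - 1/2 : ℝ) = 1/2 := by norm_num
    rw [h2, ← pow_add, Nat.add_sub_cancel' (Finset.card_le_card hF)]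
  rw [Finset.sum_congr rfl h1, ← Finset.mul_sum, Finset.card_powerset]
  push_cast
  rw [div_eq_mul_inv, mul_comm]
  congr 1
  rw [one_div, inv_pow]

theorem rcE_len (m k : ℕ) : rcE 1 m k (fun ω => (len m k ω : ℝ)) =
    ∑ v ∈ rect m k, ∑ s : Bool × Bool, Pr (fun _ => (1/2 : ℝ)) (bulk m k) (On m k v s) := by
  rw [rcE_one, Ex_congr (g := fun ω => ∑ v ∈ rect m k, ∑ s : Bool × Bool, ind (On m k v s ω))
    (fun ω hω => len_eq hω), Ex_sum]
  refine Finset.sum_congr rfl fun v _ => ?_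
  rw [Ex_sum]
  rfl

/-! ### transposition -/

theorem IL0_bulk (m k : ℕ) : tps.mp (bulk m k) = bulk k m := by
  ext ⟨x, y, _ | _⟩ <;>
  · rw [LSym.mem_mp]
    simp only [tps_φs, Bool.not_true, Bool.not_false, mem_bulk, Bool.true_eq_false,
      Bool.false_eq_true, false_and, true_and, or_false, false_or]
    tauto

theorem IL0_wired (m k : ℕ) : tps.mp (wired m k) = wired k m := by
  ext ⟨x, y, _ | _⟩ <;>
  · rw [LSym.mem_mp]
    simp only [tps_φs, Bool.not_true, Bool.not_false, mem_wired, Bool.true_eq_false,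
      Bool.false_eq_true, false_and, true_and, or_false, false_or]
    try tauto

theorem IL0_cut (m k : ℕ) : tps.mp (cut m k) = cut k m := by
  ext ⟨x, y, _ | _⟩ <;>
  · rw [LSym.mem_mp]
    simp only [tps_φs, Bool.not_true, Bool.not_false, mem_cut, Bool.true_eq_false,
      Bool.false_eq_true, false_and, true_and, or_false, false_or]
    try tauto

theorem IL0_dadj {F : Set Edg} {u v : Vtx} (h : DAdj F u v) :
    DAdj (tps.φ '' F) (tps.ψ u) (tps.ψ v) := by
  obtain ⟨e, he, hc⟩ := h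
  refine ⟨tps.φ e, Set.mem_image_of_mem _ he, ?_⟩
  obtain ⟨x, y, _ | _⟩ := e
  · simp only [tps_φ, Bool.not_false, dsrc_true, dtgt_mk, dsrc_false] at hc ⊢
    rcases hc with ⟨rfl, rfl⟩ | ⟨rfl, rfl⟩
    · left; exact ⟨rfl, rfl⟩
    · right; exact ⟨rfl, rfl⟩
  · simp only [tps_φ, Bool.not_true, dsrc_true, dtgt_mk, dsrc_false] at hc ⊢
    rcases hc with ⟨rfl, rfl⟩ | ⟨rfl, rfl⟩
    · left; exact ⟨rfl, rfl⟩
    · right; exact ⟨rfl, rfl⟩

theorem IL0_dreach {F : Set Edg} {u v : Vtx} (h : DReach F u v) :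
    DReach (tps.φ '' F) (tps.ψ u) (tps.ψ v) := by
  induction h with
  | refl => exact DReach.refl _ _
  | tail _ hs ih => exact ih.trans (IL0_dadj hs).reach

theorem IL0_invol (e : Edg) : tps.φ (tps.φ e) = e := by
  obtain ⟨x, y, b⟩ := e
  simp

theorem IL0_involv (v : Vtx) : tps.ψ (tps.ψ v) = v := by
  obtain ⟨x, y⟩ := v
  simp

theorem IL0_dreach_iff {F : Set Edg} {u v : Vtx} :
    DReach (tps.φ '' F) (tps.ψ u) (tps.ψ v) ↔ DReach F u v := by
  constructor
  · intro h
    have := IL0_dreach h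
    rw [IL0_involv, IL0_involv, Set.image_image] at this
    simpa [IL0_invol] using this
  · exact IL0_dreach

theorem IL0_inWired {m k : ℕ} {ω : Finset Edg} {v : Vtx} :
    InWired k m (tps.mp ω) (tps.ψ v) ↔ InWired m k ω v := by
  unfold InWired
  rw [← IL0_wired, LSym.coe_mp, LSym.coe_mp, ← Set.image_union]
  have e : ((0, 0) : Vtx) = tps.ψ (0, 0) := rfl
  conv_lhs => rw [e]
  exact tps.reach_iff

theorem IL0_inFree {m k : ℕ} {ω : Finset Edg} {f : Vtx} :
    InFree k m (tps.mp ω) (tps.ψ f) ↔ InFree m k ω f := by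
  unfold InFree
  rw [← IL0_bulk m k, ← IL0_cut m k, ← LSym.mp_sdiff, LSym.coe_mp, LSym.coe_mp, ← Set.image_union]
  have e : (((k : ℤ), (m : ℤ)) : Vtx) = tps.ψ ((m : ℤ), (k : ℤ)) := rfl
  rw [e]
  exact IL0_dreach_iff

theorem IL0_interface {m k : ℕ} {ω : Finset Edg} :
    Interface k m (tps.mp ω) = (fun p : Vtx × Vtx => (tps.ψ p.1, tps.ψ p.2)) '' Interface m k ω := by
  ext ⟨v, f⟩
  simp only [Interface, Set.mem_image, Set.mem_ofPred_eq, Prod.mk.injEq]
  constructor
  · rintro ⟨h1, h2, h3, h4⟩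
    refine ⟨(tps.ψ v, tps.ψ f), ⟨h2, h1, ?_, ?_⟩, IL0_involv v, IL0_involv f⟩
    · rw [← IL0_inWired, IL0_involv]; exact h3
    · rw [← IL0_inFree, IL0_involv]; exact h4
  · rintro ⟨⟨a, b⟩, ⟨h1, h2, h3, h4⟩, rfl, rfl⟩
    exact ⟨h2, h1, IL0_inWired.2 h3, IL0_inFree.2 h4⟩

theorem IL0_len {m k : ℕ} (ω : Finset Edg) : len k m (tps.mp ω) = len m k ω := by
  unfold len
  rw [IL0_interface, Set.ncard_image_of_injective]
  rintro ⟨a, b⟩ ⟨c, d⟩ h
  simp only [Prod.mk.injEq] at h
  rw [tps.ψ.injective h.1, tps.ψ.injective h.2]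

/-- transposition -/
theorem rcE_len_symm (m k : ℕ) : rcE 1 m k (fun ω => (len m k ω : ℝ)) =
    rcE 1 k m (fun ω => (len k m ω : ℝ)) := by
  rw [rcE_one, rcE_one, ← IL0_bulk m k]
  unfold LSym.mp
  rw [Ex_map]
  refine Ex_congr fun ω _ => ?_
  have := IL0_len (m := m) (k := k) ω
  unfold LSym.mp at this
  rw [this]

end H985IL
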