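import Pool.Agent.H985R3.IL.IL0
import Pool.Agent.H934R3.D74.Defs

/-!
Length of the interface: upper bound of the expectation.
-/

set_option autoImplicit false

namespace H985IL

open H974 H985BT H934F H934E H12S Finset

/-- follow a path until it meets an edge of `W` -/
private theorem il1_reach {F W : Set Edg} {B : Vtx → Prop}
    (hW : ∀ e ∈ W, B (src e) ∧ B (tgt e)) {u v : Vtx} (h : Reach (F ∪ W) u v) :
    Reach F u v ∨ ∃ w, B w ∧ Reach F u w := by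
  induction h with
  | refl => exact Or.inl (Reach.refl _ _)
  | tail _ hs ih =>
    rcases ih with ih | ih
    · obtain ⟨e, he, hc⟩ := hs
      rcases he with he | he
      · exact Or.inl (ih.tail ⟨e, he, hc⟩)
      · refine Or.inr ⟨_, ?_, ih⟩
        rcases hc with ⟨h1, _⟩ | ⟨_, h2⟩
        · rw [← h1]; exact (hW e he).1
        · rw [← h2]; exact (hW e he).2
    · exact Or.inr ih

private theorem il1_dreach {F W : Set Edg} {B : Vtx → Prop}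
    (hW : ∀ e ∈ W, B (dsrc e) ∧ B (dtgt e)) {u v : Vtx} (h : DReach (F ∪ W) u v) :
    DReach F u v ∨ ∃ w, B w ∧ DReach F u w := by
  induction h with
  | refl => exact Or.inl (DReach.refl _ _)
  | tail _ hs ih =>
    rcases ih with ih | ih
    · obtain ⟨e, he, hc⟩ := hs
      rcases he with he | he
      · exact Or.inl (ih.tail ⟨e, he, hc⟩)
      · refine Or.inr ⟨_, ?_, ih⟩
        rcases hc with ⟨h1, _⟩ | ⟨_, h2⟩
        · rw [← h1]; exact (hW e he).1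
        · rw [← h2]; exact (hW e he).2
    · exact Or.inr ih

private theorem il1_wired {m k : ℕ} {ω : Finset Edg} {v : Vtx} (h : InWired m k ω v) :
    ∃ w : Vtx, (w.1 = 0 ∨ w.2 = 0) ∧ Reach (↑ω : Set Edg) v w := by
  have h' := Reach.symm h
  have hW : ∀ e ∈ (↑(wired m k) : Set Edg), (fun w : Vtx => w.1 = 0 ∨ w.2 = 0) (src e) ∧
      (fun w : Vtx => w.1 = 0 ∨ w.2 = 0) (tgt e) := by
    intro e he
    simp only [wired, Finset.coe_union, Finset.coe_image, Set.mem_union, Set.mem_image] at he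
    rcases he with ⟨x, _, rfl⟩ | ⟨y, _, rfl⟩
    · exact ⟨Or.inr rfl, Or.inr rfl⟩
    · exact ⟨Or.inl rfl, Or.inl rfl⟩
  rcases il1_reach (B := fun w : Vtx => w.1 = 0 ∨ w.2 = 0) hW h' with h1 | ⟨w, hw, h1⟩
  · exact ⟨(0, 0), Or.inl rfl, h1⟩
  · exact ⟨w, hw, h1⟩

private theorem il1_free {m k : ℕ} {ω : Finset Edg} {f : Vtx} (h : InFree m k ω f) :
    ∃ w : Vtx, (w.1 = m ∨ w.2 = k) ∧ DReach (↑(bulk m k \ ω) : Set Edg) f w := by
  have h' := DReach.symm h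
  have hW : ∀ e ∈ (↑(cut m k) : Set Edg), (fun w : Vtx => w.1 = (m : ℤ) ∨ w.2 = (k : ℤ)) (dsrc e) ∧
      (fun w : Vtx => w.1 = (m : ℤ) ∨ w.2 = (k : ℤ)) (dtgt e) := by
    intro e he
    simp only [cut, Finset.coe_union, Finset.coe_image, Set.mem_union, Set.mem_image] at he
    rcases he with ⟨x, _, rfl⟩ | ⟨y, _, rfl⟩
    · exact ⟨Or.inl rfl, Or.inl rfl⟩
    · exact ⟨Or.inr rfl, Or.inr rfl⟩
  rcases il1_dreach (B := fun w : Vtx => w.1 = (m : ℤ) ∨ w.2 = (k : ℤ)) hW h' with h1 | ⟨w, hw, h1⟩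
  · exact ⟨(m, k), Or.inl rfl, h1⟩
  · exact ⟨w, hw, h1⟩

private theorem il1_ok : Ok (fun _ : Edg => (1/2 : ℝ)) := fun _ => by norm_num

/-- one medial edge -/
theorem on_upper (hA : St_A) : ∃ C : ℝ, 0 < C ∧ ∀ (m k : ℕ) (v : Vtx) (s : Bool × Bool) (d : ℕ),
    1 ≤ d → d ≤ v.1 → d ≤ v.2 → v.1 + d ≤ m → v.2 + d ≤ k →
    Pr (fun _ => (1/2 : ℝ)) (bulk m k) (On m k v s) ≤ C * (d : ℝ) ^ (-(1/4) : ℝ) := by
  obtain ⟨C, hC, h⟩ := hA
  refine ⟨C, hC, fun m k v s d hd h1 h2 h3 h4 => ?_⟩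
  have key := h 1 d (le_refl _) hd v.1 v.2 (bulk m k)
  have e : (((1 : ℕ) : ℝ) / d) ^ (1/4 : ℝ) = (d : ℝ) ^ (-(1/4) : ℝ) := by
    rw [Nat.cast_one, one_div, Real.inv_rpow (by positivity), Real.rpow_neg (by positivity)]
  rw [e] at key
  refine le_trans (Pr_mono il1_ok fun F hF hOn => ?_) key
  obtain ⟨hw, hf⟩ := hOn
  obtain ⟨w, hw1, hw2⟩ := il1_wired hw
  obtain ⟨g, hg1, hg2⟩ := il1_free hf
  refine ⟨⟨v, w, ?_, ?_, hw2⟩, ⟨cface v s, g, ?_, ?_, hg2⟩⟩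
  · unfold inR
    refine ⟨?_, ?_⟩ <;> constructor <;> push_cast <;> omega
  · rcases hw1 with hw1 | hw1 <;> omega
  · unfold inR cface
    refine ⟨?_, ?_⟩ <;> constructor <;> push_cast <;> split_ifs <;> omega
  · rcases hg1 with hg1 | hg1 <;> omega

/-- one-variable weight -/
private noncomputable def il1f (x : ℤ) : ℝ := ((max x 1 : ℤ) : ℝ) ^ (-(1/4) : ℝ)

private theorem il1f_nonneg (x : ℤ) : 0 ≤ il1f x := by
  unfold il1f
  have : (0 : ℝ) ≤ ((max x 1 : ℤ) : ℝ) := by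
    have : (1 : ℤ) ≤ max x 1 := le_max_right _ _
    have : (1 : ℝ) ≤ ((max x 1 : ℤ) : ℝ) := by exact_mod_cast this
    linarith
  positivity

private theorem il1f_zero : il1f 0 = 1 := by
  unfold il1f
  norm_num

private theorem il1f_nat {d : ℕ} (hd : 1 ≤ d) : il1f d = (d : ℝ) ^ (-(1/4) : ℝ) := by
  unfold il1f
  rw [max_eq_left (by exact_mod_cast hd)]
  norm_cast

private theorem il1_step (m : ℕ) : (m : ℝ) ^ (3/4 : ℝ) + 1 / 2 * ((m : ℝ) + 1) ^ (-(1/4) : ℝ) ≤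
    ((m : ℝ) + 1) ^ (3/4 : ℝ) := by
  have h0 : (0 : ℝ) ≤ m := Nat.cast_nonneg m
  have h1 : (0 : ℝ) < (m : ℝ) + 1 := by positivity
  have amgm := Real.geom_mean_le_arith_mean2_weighted (w₁ := 3/4) (w₂ := 1/4) (p₁ := (m : ℝ))
    (p₂ := (m : ℝ) + 1) (by norm_num) (by norm_num) h0 h1.le (by norm_num)
  have e1 : ((m : ℝ) + 1) ^ (3/4 : ℝ) = ((m : ℝ) + 1) ^ (-(1/4) : ℝ) * ((m : ℝ) + 1) := by
    rw [← Real.rpow_add_one h1.ne']
    norm_num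
  have e2 : ((m : ℝ) + 1) ^ (-(1/4) : ℝ) * ((m : ℝ) + 1) ^ (1/4 : ℝ) = 1 := by
    rw [← Real.rpow_add h1]
    norm_num
  have hp : 0 < ((m : ℝ) + 1) ^ (-(1/4) : ℝ) := by positivity
  have e3 : (m : ℝ) ^ (3/4 : ℝ) = ((m : ℝ) + 1) ^ (-(1/4) : ℝ) *
      ((m : ℝ) ^ (3/4 : ℝ) * ((m : ℝ) + 1) ^ (1/4 : ℝ)) := by
    rw [mul_left_comm, e2, mul_one]
  rw [e1, e3]
  have : ((m : ℝ) + 1) ^ (-(1/4) : ℝ) * ((m : ℝ) ^ (3/4 : ℝ) * ((m : ℝ) + 1) ^ (1/4 : ℝ)) ≤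
      ((m : ℝ) + 1) ^ (-(1/4) : ℝ) * (3 / 4 * m + 1 / 4 * (m + 1)) :=
    mul_le_mul_of_nonneg_left amgm hp.le
  nlinarith

private theorem il1_sum (m : ℕ) : ∑ x ∈ Finset.Icc (0 : ℤ) m, il1f x ≤
    1 + 2 * (m : ℝ) ^ (3/4 : ℝ) := by
  induction m with
  | zero =>
    simp only [Nat.cast_zero, Finset.Icc_self, Finset.sum_singleton, il1f_zero]
    have : (0 : ℝ) ≤ (0 : ℝ) ^ (3/4 : ℝ) := by positivity
    linarith
  | succ m ih =>
    have e : Finset.Icc (0 : ℤ) ((m + 1 : ℕ) : ℤ) =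
        insert ((m + 1 : ℕ) : ℤ) (Finset.Icc (0 : ℤ) m) := by
      ext x
      simp only [Finset.mem_Icc, Finset.mem_insert]
      push_cast
      omega
    rw [e, Finset.sum_insert (by simp), il1f_nat (by omega)]
    have := il1_step m
    push_cast
    linarith

private theorem il1_sum' {m : ℕ} (hm : 1 ≤ m) : ∑ x ∈ Finset.Icc (0 : ℤ) m, il1f x ≤
    3 * (m : ℝ) ^ (3/4 : ℝ) := by
  have h1 : (1 : ℝ) ≤ (m : ℝ) ^ (3/4 : ℝ) :=
    Real.one_le_rpow (by exact_mod_cast hm) (by norm_num)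
  linarith [il1_sum m]

private theorem il1_refl (m : ℕ) : ∑ x ∈ Finset.Icc (0 : ℤ) m, il1f (m - x) =
    ∑ x ∈ Finset.Icc (0 : ℤ) m, il1f x := by
  refine Finset.sum_nbij' (fun x => (m : ℤ) - x) (fun x => (m : ℤ) - x) ?_ ?_ ?_ ?_ ?_
  · intro x hx
    simp only [Finset.mem_Icc] at hx ⊢
    omega
  · intro x hx
    simp only [Finset.mem_Icc] at hx ⊢
    omega
  · intro x _; ring
  · intro x _; ring
  · intro x _; rfl

/-- the bound for every vertex of the rectangle -/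
private theorem il1_all {C : ℝ} (hC : 0 < C) (h : ∀ (m k : ℕ) (v : Vtx) (s : Bool × Bool) (d : ℕ),
    1 ≤ d → d ≤ v.1 → d ≤ v.2 → v.1 + d ≤ m → v.2 + d ≤ k →
    Pr (fun _ => (1/2 : ℝ)) (bulk m k) (On m k v s) ≤ C * (d : ℝ) ^ (-(1/4) : ℝ))
    (m k : ℕ) (v : Vtx) (hv : v ∈ rect m k) (s : Bool × Bool) :
    Pr (fun _ => (1/2 : ℝ)) (bulk m k) (On m k v s) ≤
      (C + 1) * (il1f v.1 + il1f (m - v.1) + (il1f v.2 + il1f (k - v.2))) := by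
  simp only [rect, Finset.mem_product, Finset.mem_Icc] at hv
  obtain ⟨⟨a1, a2⟩, a3, a4⟩ := hv
  have n1 := il1f_nonneg v.1
  have n2 := il1f_nonneg (m - v.1)
  have n3 := il1f_nonneg v.2
  have n4 := il1f_nonneg (k - v.2)
  -- the smallest of the four distances
  have hmin : ∃ d : ℕ, (d : ℤ) ≤ v.1 ∧ (d : ℤ) ≤ v.2 ∧ (d : ℤ) ≤ m - v.1 ∧ (d : ℤ) ≤ k - v.2 ∧
      ((d : ℤ) = v.1 ∨ (d : ℤ) = m - v.1 ∨ (d : ℤ) = v.2 ∨ (d : ℤ) = k - v.2) := by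
    refine ⟨(min (min v.1 (m - v.1)) (min v.2 (k - v.2))).toNat, ?_⟩
    omega
  obtain ⟨d, b1, b2, b3, b4, b5⟩ := hmin
  have hle : il1f d ≤ il1f v.1 + il1f (m - v.1) + (il1f v.2 + il1f (k - v.2)) := by
    rcases b5 with b | b | b | b <;> rw [b] <;> linarith
  rcases Nat.eq_zero_or_pos d with hd | hd
  · subst hd
    have h1 : il1f ((0 : ℕ) : ℤ) = 1 := by simpa using il1f_zero
    rw [h1] at hle
    refine (Pr_le_one il1_ok _ _).trans ?_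
    nlinarith
  · have h1 := h m k v s d hd b1 b2 (by omega) (by omega)
    rw [← il1f_nat hd] at h1
    refine h1.trans ?_
    have := il1f_nonneg d
    nlinarith

/-- upper bound of the expected length -/
theorem len_upper (hA : St_A) : ∃ C : ℝ, 0 < C ∧ ∀ m k : ℕ, 1 ≤ m → 1 ≤ k →
    rcE 1 m k (fun ω => (len m k ω : ℝ)) ≤
      C * (max m k : ℕ) * ((min m k : ℕ) : ℝ) ^ (3/4 : ℝ) := by
  obtain ⟨C, hC, h⟩ := on_upper hA
  refine ⟨96 * (C + 1), by positivity, fun m k hm hk => ?_⟩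
  rw [rcE_len]
  have h1 : ∑ v ∈ rect m k, ∑ s : Bool × Bool, Pr (fun _ => (1/2 : ℝ)) (bulk m k) (On m k v s) ≤
      ∑ v ∈ rect m k, 4 * ((C + 1) *
        (il1f v.1 + il1f (m - v.1) + (il1f v.2 + il1f (k - v.2)))) := by
    refine Finset.sum_le_sum fun v hv => ?_
    refine (Finset.sum_le_card_nsmul _ _ _ fun s _ => il1_all hC h m k v hv s).trans ?_
    simp
  refine h1.trans ?_
  rw [← Finset.mul_sum, ← Finset.mul_sum, Finset.sum_add_distrib]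
  have e1 : ∑ v ∈ rect m k, (il1f v.1 + il1f (m - v.1)) =
      ((k : ℝ) + 1) * (2 * ∑ x ∈ Finset.Icc (0 : ℤ) m, il1f x) := by
    unfold rect
    rw [Finset.sum_product]
    simp only [Finset.sum_const, Int.card_Icc, nsmul_eq_mul]
    rw [← Finset.mul_sum, Finset.sum_add_distrib, il1_refl, two_mul]
    congr 1
    rw [show (k : ℤ) + 1 - 0 = ((k + 1 : ℕ) : ℤ) by push_cast; ring, Int.toNat_natCast]
    push_cast
    ring
  have e2 : ∑ v ∈ rect m k, (il1f v.2 + il1f (k - v.2)) =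
      ((m : ℝ) + 1) * (2 * ∑ x ∈ Finset.Icc (0 : ℤ) k, il1f x) := by
    unfold rect
    rw [Finset.sum_product]
    simp only [Finset.sum_const, Int.card_Icc, nsmul_eq_mul]
    rw [Finset.sum_add_distrib, il1_refl, ← two_mul]
    congr 1
    rw [show (m : ℤ) + 1 - 0 = ((m + 1 : ℕ) : ℤ) by push_cast; ring, Int.toNat_natCast]
    push_cast
    ring
  rw [e1, e2]
  have s1 := il1_sum' hm
  have s2 := il1_sum' hk
  have hm' : (1 : ℝ) ≤ m := by exact_mod_cast hm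
  have hk' : (1 : ℝ) ≤ k := by exact_mod_cast hk
  -- compare with the maximum and the minimum
  have cmp : ∀ a b : ℕ, 1 ≤ a → a ≤ b → (a : ℝ) * (b : ℝ) ^ (3/4 : ℝ) ≤
      (b : ℝ) * (a : ℝ) ^ (3/4 : ℝ) := by
    intro a b ha hab
    have ha' : (0 : ℝ) < a := by exact_mod_cast ha
    have hb' : (0 : ℝ) < b := by exact_mod_cast (lt_of_lt_of_le ha hab)
    have e3 : (a : ℝ) = (a : ℝ) ^ (3/4 : ℝ) * (a : ℝ) ^ (1/4 : ℝ) := by
      rw [← Real.rpow_add ha']; norm_num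
    have e4 : (b : ℝ) = (b : ℝ) ^ (3/4 : ℝ) * (b : ℝ) ^ (1/4 : ℝ) := by
      rw [← Real.rpow_add hb']; norm_num
    have e5 : (a : ℝ) ^ (1/4 : ℝ) ≤ (b : ℝ) ^ (1/4 : ℝ) :=
      Real.rpow_le_rpow ha'.le (by exact_mod_cast hab) (by norm_num)
    calc (a : ℝ) * (b : ℝ) ^ (3/4 : ℝ)
        = (a : ℝ) ^ (1/4 : ℝ) * ((a : ℝ) ^ (3/4 : ℝ) * (b : ℝ) ^ (3/4 : ℝ)) := by
          nth_rewrite 1 [e3]; ring
      _ ≤ (b : ℝ) ^ (1/4 : ℝ) * ((a : ℝ) ^ (3/4 : ℝ) * (b : ℝ) ^ (3/4 : ℝ)) :=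
          mul_le_mul_of_nonneg_right e5 (by positivity)
      _ = ((b : ℝ) ^ (3/4 : ℝ) * (b : ℝ) ^ (1/4 : ℝ)) * (a : ℝ) ^ (3/4 : ℝ) := by ring
      _ = (b : ℝ) * (a : ℝ) ^ (3/4 : ℝ) := by rw [← e4]
  have t1 : (k : ℝ) * (m : ℝ) ^ (3/4 : ℝ) ≤
      (max m k : ℕ) * ((min m k : ℕ) : ℝ) ^ (3/4 : ℝ) := by
    rcases le_total m k with hmk | hmk
    · rw [max_eq_right hmk, min_eq_left hmk]
    · rw [max_eq_left hmk, min_eq_right hmk]
      exact cmp k m hk hmk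
  have t2 : (m : ℝ) * (k : ℝ) ^ (3/4 : ℝ) ≤
      (max m k : ℕ) * ((min m k : ℕ) : ℝ) ^ (3/4 : ℝ) := by
    rcases le_total m k with hmk | hmk
    · rw [max_eq_right hmk, min_eq_left hmk]
      exact cmp m k hm hmk
    · rw [max_eq_left hmk, min_eq_right hmk]
  have u1 : ((k : ℝ) + 1) * (2 * ∑ x ∈ Finset.Icc (0 : ℤ) m, il1f x) ≤
      12 * ((k : ℝ) * (m : ℝ) ^ (3/4 : ℝ)) := by
    have p1 : (0 : ℝ) ≤ (m : ℝ) ^ (3/4 : ℝ) := by positivity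
    have p2 : ((k : ℝ) + 1) * (2 * ∑ x ∈ Finset.Icc (0 : ℤ) m, il1f x) ≤
        ((k : ℝ) + 1) * (2 * (3 * (m : ℝ) ^ (3/4 : ℝ))) :=
      mul_le_mul_of_nonneg_left (by linarith) (by positivity)
    nlinarith
  have u2 : ((m : ℝ) + 1) * (2 * ∑ x ∈ Finset.Icc (0 : ℤ) k, il1f x) ≤
      12 * ((m : ℝ) * (k : ℝ) ^ (3/4 : ℝ)) := by
    have p1 : (0 : ℝ) ≤ (k : ℝ) ^ (3/4 : ℝ) := by positivity
    have p2 : ((m : ℝ) + 1) * (2 * ∑ x ∈ Finset.Icc (0 : ℤ) k, il1f x) ≤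
        ((m : ℝ) + 1) * (2 * (3 * (k : ℝ) ^ (3/4 : ℝ))) :=
      mul_le_mul_of_nonneg_left (by linarith) (by positivity)
    nlinarith
  have hC1 : (0 : ℝ) ≤ 4 * (C + 1) := by positivity
  calc 4 * ((C + 1) * (((k : ℝ) + 1) * (2 * ∑ x ∈ Finset.Icc (0 : ℤ) m, il1f x) +
        ((m : ℝ) + 1) * (2 * ∑ x ∈ Finset.Icc (0 : ℤ) k, il1f x)))
      = 4 * (C + 1) * (((k : ℝ) + 1) * (2 * ∑ x ∈ Finset.Icc (0 : ℤ) m, il1f x) +
        ((m : ℝ) + 1) * (2 * ∑ x ∈ Finset.Icc (0 : ℤ) k, il1f x)) := by ring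
    _ ≤ 4 * (C + 1) * (24 * ((max m k : ℕ) * ((min m k : ℕ) : ℝ) ^ (3/4 : ℝ))) :=
        mul_le_mul_of_nonneg_left (by linarith) hC1
    _ = 96 * (C + 1) * (max m k : ℕ) * ((min m k : ℕ) : ℝ) ^ (3/4 : ℝ) := by ring

end H985IL
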