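import Pool.Agent.H985R3.IL.IL3Core
import Pool.Agent.H985R3.IL.IL0
import Pool.Agent.H985R3.IL.IL2

/-!
# Lower bound of the expected length of the interface
-/

set_option autoImplicit false

namespace H985IL

open H974 H985BT H934F H934E Finset

theorem len_lower (hL : St_L) : ∃ c : ℝ, 0 < c ∧ ∀ m k : ℕ, 1 ≤ m → 1 ≤ k →
    c * (max m k : ℕ) * ((min m k : ℕ) : ℝ) ^ (3/4 : ℝ) ≤
      rcE 1 m k (fun ω => (len m k ω : ℝ)) :=
  len_lower_of rcE_len rcE_len_symm (long_arms hL 32 (by norm_num))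

end H985IL
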