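import Pool.Agent.H985R3.IL.Defs
import Pool.Agent.H985R2.BT7

/-!
# Lower bound of the length of the interface: core of the proof
-/

set_option autoImplicit false

namespace H985IL

open H974 H985BT H934E Finset

namespace IL3

/-- A path to the wired sides can be stopped when it first reaches them. -/
theorem first_side' {m k : ℕ} {G : Set Edg}
    (hG : ∀ e ∈ G, ((0 < (src e).1 ∧ 0 < (src e).2) ∨ (0 < (tgt e).1 ∧ 0 < (tgt e).2)) →
      e ∈ bulk m k) {u v : Vtx}
    (h : Reach G u v) (hv : v.1 ≤ 0 ∨ v.2 ≤ 0) :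
    ∃ w : Vtx, (w.1 ≤ 0 ∨ w.2 ≤ 0) ∧ Reach (G ∩ ↑(bulk m k)) u w := by
  have key : ∀ w, Reach G u w → (∃ w : Vtx, (w.1 ≤ 0 ∨ w.2 ≤ 0) ∧ Reach (G ∩ ↑(bulk m k)) u w) ∨
      ((0 < w.1 ∧ 0 < w.2) ∧ Reach (G ∩ ↑(bulk m k)) u w) := by
    intro w hw
    induction hw with
    | refl =>
      by_cases hb : u.1 ≤ 0 ∨ u.2 ≤ 0
      · exact Or.inl ⟨u, hb, Reach.refl _ _⟩
      · exact Or.inr ⟨by omega, Reach.refl _ _⟩
    | @tail b c _ hs ih =>
      rcases ih with ih | ⟨ih1, ih2⟩
      · exact Or.inl ih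
      · obtain ⟨e, he, hcs⟩ := hs
        have hb : e ∈ bulk m k := by
          refine hG e he ?_
          rcases hcs with ⟨k1, _⟩ | ⟨_, k1⟩
          · left; rw [k1]; exact ih1
          · right; rw [k1]; exact ih1
        have hr : Reach (G ∩ ↑(bulk m k)) u c :=
          ih2.tail ⟨e, ⟨he, Finset.mem_coe.mpr hb⟩, hcs⟩
        by_cases hc : c.1 ≤ 0 ∨ c.2 ≤ 0
        · exact Or.inl ⟨c, hc, hr⟩
        · exact Or.inr ⟨by omega, hr⟩
  rcases key v h with h1 | ⟨h1, _⟩
  · exact h1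
  · omega

/-- an open arm to the left reaches the wired cluster -/
theorem open_arm {m k : ℕ} {F : Finset Edg} {v : Vtx} {A h : ℤ} (h0 : 0 ≤ h) (hv0 : 0 ≤ v.1)
    (hv1 : v.1 + h ≤ m) (hv2 : 0 ≤ v.2 - h) (hv3 : v.2 + h ≤ k) (hA : v.1 - A ≤ 0)
    {y : Vtx} (hy : y.1 = v.1 - A)
    (hR : Reach (↑F ∩ ↑(RE (v.1 - A) (v.1 + h) (v.2 - h) (v.2 + h))) v y) :
    InWired m k (F ∩ bulk m k) v := by
  obtain ⟨w, hw, hR'⟩ := first_side' (m := m) (k := k)
    (G := ↑F ∩ ↑(RE (v.1 - A) (v.1 + h) (v.2 - h) (v.2 + h))) (by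
      rintro ⟨x, z, _ | _⟩ ⟨_, he⟩ h'
      · rw [Finset.mem_coe, mem_RE_false] at he
        refine bulk_of ?_ h'
        rw [mem_RE_false]
        simp only [src_mk, tgt_false] at h'
        omega
      · rw [Finset.mem_coe, mem_RE_true] at he
        refine bulk_of ?_ h'
        rw [mem_RE_true]
        simp only [src_mk, tgt_true] at h'
        omega) hR (by left; omega)
  rw [InWired_iff Finset.inter_subset_right (by omega)]
  refine ⟨w, hw, hR'.mono ?_⟩
  rintro e ⟨⟨he1, _⟩, he2⟩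
  refine ⟨?_, Finset.mem_coe.mpr (bulk_sub m k (Finset.mem_coe.mp he2))⟩
  rw [Finset.mem_coe, Finset.mem_inter]
  exact ⟨Finset.mem_coe.mp he1, Finset.mem_coe.mp he2⟩

/-- a dual arm to the right reaches the free cluster -/
theorem dual_arm {m k : ℕ} {F : Finset Edg} {v f : Vtx} {A h : ℤ}
    (hv1 : 1 ≤ v.1 - h) (hv2 : 1 ≤ v.2 - h) (hv3 : v.2 + h ≤ k) (hf : f.1 < m)
    (hA : (m : ℤ) ≤ v.1 + A) {g : Vtx} (hg : g.1 = v.1 + A)
    (hR : DReach (↑(RE (v.1 - h) (v.1 + A) (v.2 - h) (v.2 + h) \ F) : Set Edg) f g) :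
    InFree m k (F ∩ bulk m k) f := by
  have key : ∀ w, DReach (↑(RE (v.1 - h) (v.1 + A) (v.2 - h) (v.2 + h) \ F) : Set Edg) f w →
      (∃ y0 : ℕ, y0 ≤ k ∧ DReach (↑(bulk m k \ (F ∩ bulk m k)) : Set Edg) f ((m : ℤ), (y0 : ℤ))) ∨
      (w.1 < m ∧ DReach (↑(bulk m k \ (F ∩ bulk m k)) : Set Edg) f w) := by
    intro w hw
    induction hw with
    | refl => exact Or.inr ⟨hf, DReach.refl _ _⟩
    | @tail b c _ hs ih =>
      rcases ih with ih | ⟨ih1, ih2⟩
      · exact Or.inl ih
      · obtain ⟨e, he, hcs⟩ := hs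
        rw [Finset.mem_coe, Finset.mem_sdiff] at he
        obtain ⟨he1, he2⟩ := he
        have fin : e ∈ bulk m k → (c.1 < m ∨ (c.1 = m ∧ 0 ≤ c.2 ∧ c.2 ≤ k)) →
            (∃ y0 : ℕ, y0 ≤ k ∧
              DReach (↑(bulk m k \ (F ∩ bulk m k)) : Set Edg) f ((m : ℤ), (y0 : ℤ))) ∨
            (c.1 < m ∧ DReach (↑(bulk m k \ (F ∩ bulk m k)) : Set Edg) f c) := by
          intro hb hc
          have hmem : e ∈ (↑(bulk m k \ (F ∩ bulk m k)) : Set Edg) := by
            rw [Finset.mem_coe, Finset.mem_sdiff, Finset.mem_inter]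
            exact ⟨hb, fun h => he2 h.1⟩
          have hstep : DReach (↑(bulk m k \ (F ∩ bulk m k)) : Set Edg) f c :=
            ih2.tail ⟨e, hmem, hcs⟩
          rcases hc with hc | ⟨hc1, hc2, hc3⟩
          · exact Or.inr ⟨hc, hstep⟩
          · left
            obtain ⟨c1, c2⟩ := c
            simp only at hc1 hc2 hc3
            subst hc1
            refine ⟨c2.toNat, by omega, ?_⟩
            rwa [Int.toNat_of_nonneg hc2]
        obtain ⟨x, z, _ | _⟩ := e
        · rw [mem_RE_false] at he1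
          simp only [dsrc_false, dtgt_mk] at hcs
          rcases hcs with ⟨k1, k2⟩ | ⟨k1, k2⟩
          · subst k1 k2
            simp only at ih1
            refine fin ?_ ?_
            · rw [mem_bulk]
              simp only [Bool.false_eq_true, false_and, false_or, true_and]
              omega
            · simp only
              omega
          · subst k1 k2
            simp only at ih1
            refine fin ?_ ?_
            · rw [mem_bulk]
              simp only [Bool.false_eq_true, false_and, false_or, true_and]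
              omega
            · simp only
              omega
        · rw [mem_RE_true] at he1
          simp only [dsrc_true, dtgt_mk] at hcs
          rcases hcs with ⟨k1, k2⟩ | ⟨k1, k2⟩
          · subst k1 k2
            simp only at ih1
            refine fin ?_ ?_
            · rw [mem_bulk]
              simp only [Bool.true_eq_false, false_and, or_false, true_and]
              omega
            · simp only
              omega
          · subst k1 k2
            simp only at ih1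
            refine fin ?_ ?_
            · rw [mem_bulk]
              simp only [Bool.true_eq_false, false_and, or_false, true_and]
              omega
            · simp only
              omega
  rcases key g hR with ⟨y0, hy0, h1⟩ | ⟨h1, _⟩
  · exact (free_right (F ∩ bulk m k) hy0).trans ((h1.symm).mono Set.subset_union_left)
  · omega

/-- probability that all edges of `T` are closed -/
theorem Pr_avoid {S T : Finset Edg} (hT : T ⊆ S) :
    Pr (fun _ => (1/2 : ℝ)) S (fun F => Disjoint F T) = (1/2 : ℝ) ^ T.card := by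
  rw [Pr_local hT (A := fun F => Disjoint F T)]
  · unfold Pr Ex
    rw [Finset.sum_eq_single ∅]
    · have h0 : ind (Disjoint (∅ : Finset Edg) T) = 1 := ind_of (Finset.disjoint_empty_left T)
      simp only [Finset.sdiff_empty, Finset.prod_const, h0]
      norm_num
    · intro F hF hne
      rw [Finset.mem_powerset] at hF
      have h0 : ind (Disjoint F T) = 0 := ind_not_of fun hd =>
        hne (Finset.disjoint_self_iff_empty F |>.1 (hd.mono_right hF))
      simp only [h0, mul_zero]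
    · intro h
      exact absurd (Finset.empty_mem_powerset T) h
  · intro F _
    constructor
    · intro h
      exact h.mono_left Finset.inter_subset_left
    · intro h
      rw [Finset.disjoint_left] at h ⊢
      intro e he heT
      exact h (Finset.mem_inter.2 ⟨he, heT⟩) heT

/-- narrow rectangles: a medial edge at the left side -/
theorem on_small {m k : ℕ} {y : ℕ} (hy : y < k) {F : Finset Edg}
    (hF : Disjoint F ((Finset.Icc (1 : ℤ) m).image (fun x => ((x, (y : ℤ), false) : Edg)))) :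
    On m k (0, (y : ℤ)) (true, true) F := by
  refine ⟨?_, ?_⟩
  · unfold InWired
    exact (wired_line (by simp only; omega) (Or.inl le_rfl)).mono Set.subset_union_right
  · have hcf : cface (0, (y : ℤ)) (true, true) = (0, (y : ℤ)) := rfl
    rw [hcf]
    have key : ∀ n : ℕ, n ≤ m → InFree m k F (((m : ℤ) - n), (y : ℤ)) := by
      intro n
      induction n with
      | zero =>
        intro _
        have := free_right (m := m) (k := k) F hy.le
        simpa using this
      | succ n ih =>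
        intro hn
        refine (ih (by omega)).trans (DAdj.reach ⟨((m : ℤ) - n, (y : ℤ), false), Or.inl ?_,
          Or.inr ⟨?_, ?_⟩⟩)
        · rw [Finset.mem_coe, Finset.mem_sdiff, mem_bulk]
          refine ⟨Or.inr ⟨rfl, by simp only; omega, by simp only; omega⟩, ?_⟩
          intro h
          refine (Finset.disjoint_left.1 hF) h ?_
          rw [Finset.mem_image]
          exact ⟨(m : ℤ) - n, by rw [Finset.mem_Icc]; omega, rfl⟩
        · rw [dsrc_false]
          push_cast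
          congr 1
          ring
        · simp
    have := key m le_rfl
    simpa using this

theorem rect_mem {m k : ℕ} {v : Vtx} : v ∈ rect m k ↔
    (0 ≤ v.1 ∧ v.1 ≤ m) ∧ (0 ≤ v.2 ∧ v.2 ≤ k) := by
  unfold rect
  rw [Finset.mem_product, Finset.mem_Icc, Finset.mem_Icc]

/-- the double sum is at least the sum over a subset with one corner type -/
theorem sum_ge {m k : ℕ} (T : Finset Vtx) (hT : T ⊆ rect m k) (s : Bool × Bool) (x : ℝ)
    (h : ∀ v ∈ T, x ≤ Pr (fun _ => (1/2 : ℝ)) (bulk m k) (On m k v s)) :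
    (T.card : ℝ) * x ≤ ∑ v ∈ rect m k, ∑ s : Bool × Bool,
      Pr (fun _ => (1/2 : ℝ)) (bulk m k) (On m k v s) := by
  have ok : Ok (fun _ : Edg => (1/2 : ℝ)) := fun _ => ⟨by norm_num, by norm_num⟩
  calc (T.card : ℝ) * x = ∑ _v ∈ T, x := by rw [Finset.sum_const, nsmul_eq_mul]
    _ ≤ ∑ v ∈ T, Pr (fun _ => (1/2 : ℝ)) (bulk m k) (On m k v s) := Finset.sum_le_sum h
    _ ≤ ∑ v ∈ T, ∑ s : Bool × Bool, Pr (fun _ => (1/2 : ℝ)) (bulk m k) (On m k v s) := by
        refine Finset.sum_le_sum fun v _ => ?_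
        exact Finset.single_le_sum
          (f := fun s => Pr (fun _ => (1/2 : ℝ)) (bulk m k) (On m k v s))
          (fun s _ => Pr_nonneg ok _ _) (Finset.mem_univ s)
    _ ≤ _ := by
        refine Finset.sum_le_sum_of_subset_of_nonneg hT fun v _ _ => ?_
        exact Finset.sum_nonneg fun s _ => Pr_nonneg ok _ _

theorem small {m k : ℕ} (hm : 1 ≤ m) (hm2 : m < 64) :
    (1/2 : ℝ) ^ 70 * k * (m : ℝ) ^ (3/4 : ℝ) ≤ ∑ v ∈ rect m k, ∑ s : Bool × Bool,
      Pr (fun _ => (1/2 : ℝ)) (bulk m k) (On m k v s) := by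
  have ok : Ok (fun _ : Edg => (1/2 : ℝ)) := fun _ => ⟨by norm_num, by norm_num⟩
  have h1 := sum_ge (m := m) (k := k) ((Finset.range k).image (fun y : ℕ => ((0 : ℤ), (y : ℤ))))
    (by
      intro v hv
      rw [Finset.mem_image] at hv
      obtain ⟨y, hy, rfl⟩ := hv
      rw [Finset.mem_range] at hy
      rw [rect_mem]
      simp only
      omega) (true, true) ((1/2 : ℝ) ^ 64)
    (by
      intro v hv
      rw [Finset.mem_image] at hv
      obtain ⟨y, hy, rfl⟩ := hv
      rw [Finset.mem_range] at hy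
      have hT : (Finset.Icc (1 : ℤ) m).image (fun x => ((x, (y : ℤ), false) : Edg)) ⊆
          bulk m k := by
        intro e he
        rw [Finset.mem_image] at he
        obtain ⟨x, hx, rfl⟩ := he
        rw [Finset.mem_Icc] at hx
        rw [mem_bulk]
        exact Or.inr ⟨rfl, by simp only; omega, by simp only; omega⟩
      have hcard : ((Finset.Icc (1 : ℤ) m).image
          (fun x => ((x, (y : ℤ), false) : Edg))).card ≤ 64 := by
        refine Finset.card_image_le.trans ?_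
        rw [Int.card_Icc]
        omega
      calc (1/2 : ℝ) ^ 64 ≤ (1/2 : ℝ) ^ ((Finset.Icc (1 : ℤ) m).image
            (fun x => ((x, (y : ℤ), false) : Edg))).card :=
            pow_le_pow_of_le_one (by norm_num) (by norm_num) hcard
        _ = Pr (fun _ => (1/2 : ℝ)) (bulk m k) (fun F => Disjoint F
              ((Finset.Icc (1 : ℤ) m).image (fun x => ((x, (y : ℤ), false) : Edg)))) :=
            (Pr_avoid hT).symm
        _ ≤ _ := Pr_mono ok fun F _ hF => on_small hy hF)
  rw [Finset.card_image_of_injective _ (by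
    intro a b hab
    simpa using hab), Finset.card_range] at h1
  refine le_trans ?_ h1
  have h2 : (m : ℝ) ^ (3/4 : ℝ) ≤ 64 := by
    have h3 : (1 : ℝ) ≤ m := by exact_mod_cast hm
    have h4 : (m : ℝ) ≤ 64 := by exact_mod_cast hm2.le
    calc (m : ℝ) ^ (3/4 : ℝ) ≤ (m : ℝ) ^ (1 : ℝ) :=
          Real.rpow_le_rpow_of_exponent_le h3 (by norm_num)
      _ = m := Real.rpow_one _
      _ ≤ 64 := h4
  calc (1/2 : ℝ) ^ 70 * k * (m : ℝ) ^ (3/4 : ℝ) ≤ (1/2 : ℝ) ^ 70 * k * 64 :=
        mul_le_mul_of_nonneg_left h2 (by positivity)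
    _ = k * (1/2 : ℝ) ^ 64 := by norm_num; ring

theorem large {m k : ℕ} (hm : 64 ≤ m) (hmk : m ≤ k) (c : ℝ) (hc : 0 < c) (s : Bool × Bool)
    (hla : ∀ h : ℕ, 1 ≤ h → ∀ (v : Vtx) (S : Finset Edg),
      RE (v.1 - (32 * h : ℕ)) (v.1 + (32 * h : ℕ)) (v.2 - h) (v.2 + h) ⊆ S →
      c * (h : ℝ) ^ (-(1/4) : ℝ) ≤ Pr (fun _ => (1/2 : ℝ)) S (fun F =>
        (∃ y : Vtx, y.1 = v.1 - (32 * h : ℕ) ∧
          Reach (↑F ∩ ↑(RE (v.1 - (32 * h : ℕ)) (v.1 + h) (v.2 - h) (v.2 + h))) v y) ∧
        ∃ g : Vtx, g.1 = v.1 + (32 * h : ℕ) ∧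
          DReach (↑(RE (v.1 - h) (v.1 + (32 * h : ℕ)) (v.2 - h) (v.2 + h) \ F) : Set Edg)
            (cface v s) g)) :
    c / 4 * k * (m : ℝ) ^ (3/4 : ℝ) ≤ ∑ v ∈ rect m k, ∑ s : Bool × Bool,
      Pr (fun _ => (1/2 : ℝ)) (bulk m k) (On m k v s) := by
  have ok : Ok (fun _ : Edg => (1/2 : ℝ)) := fun _ => ⟨by norm_num, by norm_num⟩
  obtain ⟨h, hh⟩ : ∃ h : ℕ, h = m / 16 := ⟨_, rfl⟩
  have hh1 : 4 ≤ h := by omega
  have hh2 : 16 * h ≤ m := by omega
  have hh3 : m < 20 * h := by omega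
  set T : Finset Vtx := Finset.Icc (2 * h : ℤ) (14 * h) ×ˢ Finset.Icc (h + 1 : ℤ) (k - h) with hT
  have h1 := sum_ge (m := m) (k := k) T
    (by
      intro v hv
      rw [hT, Finset.mem_product, Finset.mem_Icc, Finset.mem_Icc] at hv
      rw [rect_mem]
      omega) s (c * (h : ℝ) ^ (-(1/4) : ℝ))
    (by
      intro v hv
      rw [hT, Finset.mem_product, Finset.mem_Icc, Finset.mem_Icc] at hv
      refine (hla h (by omega) v (RE (v.1 - (32 * h : ℕ)) (v.1 + (32 * h : ℕ)) (v.2 - h) (v.2 + h) ∪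
        bulk m k) Finset.subset_union_left).trans ?_
      refine (Pr_mono ok (B := fun F => On m k v s (F ∩ bulk m k)) ?_).trans_eq ?_
      · rintro F - ⟨⟨y, hy, hR⟩, g, hg, hD⟩
        refine ⟨open_arm (by omega) (by omega) (by omega) (by omega) (by omega) ?_ hy hR,
          dual_arm (v := v) (by omega) (by omega) (by omega) ?_ ?_ hg hD⟩
        · push_cast; omega
        · unfold cface
          simp only
          split_ifs <;> omega
        · push_cast; omega
      · rw [Pr_local (S' := bulk m k) Finset.subset_union_right]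
        · exact Pr_congr fun F hF => by rw [Finset.inter_eq_left.2 hF]
        · intro F _
          rw [Finset.inter_assoc, Finset.inter_self])
  refine le_trans ?_ h1
  have hcard : (T.card : ℝ) ≥ 10 * h * k := by
    have e1 : T.card = (12 * h + 1) * (k - 2 * h) := by
      rw [hT, Finset.card_product, Int.card_Icc, Int.card_Icc]
      congr 1 <;> omega
    have e2 : 10 * h * k ≤ T.card := by
      rw [e1]
      have e3 : 7 * k ≤ 8 * (k - 2 * h) := by omega
      nlinarith
    exact_mod_cast e2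
  have hhr : (0 : ℝ) < h := by
    have : 0 < h := by omega
    exact_mod_cast this
  have hkr : (0 : ℝ) ≤ k := Nat.cast_nonneg k
  have hpow : (0 : ℝ) < (h : ℝ) ^ (-(1/4) : ℝ) := Real.rpow_pos_of_pos hhr _
  have e1 : (h : ℝ) * (h : ℝ) ^ (-(1/4) : ℝ) = (h : ℝ) ^ (3/4 : ℝ) := by
    nth_rewrite 1 [← Real.rpow_one (h : ℝ)]
    rw [← Real.rpow_add hhr]
    norm_num
  have e2 : (m : ℝ) ^ (3/4 : ℝ) ≤ 20 * (h : ℝ) ^ (3/4 : ℝ) := by
    have e3 : (m : ℝ) ≤ 20 * h := by exact_mod_cast hh3.le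
    calc (m : ℝ) ^ (3/4 : ℝ) ≤ (20 * (h : ℝ)) ^ (3/4 : ℝ) :=
          Real.rpow_le_rpow (Nat.cast_nonneg m) e3 (by norm_num)
      _ = (20 : ℝ) ^ (3/4 : ℝ) * (h : ℝ) ^ (3/4 : ℝ) :=
          Real.mul_rpow (by norm_num) hhr.le
      _ ≤ (20 : ℝ) ^ (1 : ℝ) * (h : ℝ) ^ (3/4 : ℝ) :=
          mul_le_mul_of_nonneg_right
            (Real.rpow_le_rpow_of_exponent_le (by norm_num) (by norm_num)) (by positivity)
      _ = 20 * (h : ℝ) ^ (3/4 : ℝ) := by rw [Real.rpow_one]
  calc c / 4 * k * (m : ℝ) ^ (3/4 : ℝ) ≤ c / 4 * k * (20 * (h : ℝ) ^ (3/4 : ℝ)) :=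
        mul_le_mul_of_nonneg_left e2 (by positivity)
    _ = 5 * (c * k * ((h : ℝ) * (h : ℝ) ^ (-(1/4) : ℝ))) := by rw [e1]; ring
    _ ≤ 10 * (c * k * ((h : ℝ) * (h : ℝ) ^ (-(1/4) : ℝ))) := by
        have : 0 ≤ c * k * ((h : ℝ) * (h : ℝ) ^ (-(1/4) : ℝ)) := by positivity
        linarith
    _ = (10 * h * k) * (c * (h : ℝ) ^ (-(1/4) : ℝ)) := by ring
    _ ≤ _ := mul_le_mul_of_nonneg_right hcard (by positivity)

end IL3

open IL3 in
/-- lower bound of the expected length, from the long arms -/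
theorem len_lower_of
    (hlen : ∀ m k : ℕ, rcE 1 m k (fun ω => (len m k ω : ℝ)) =
      ∑ v ∈ rect m k, ∑ s : Bool × Bool, Pr (fun _ => (1/2 : ℝ)) (bulk m k) (On m k v s))
    (hsym : ∀ m k : ℕ, rcE 1 m k (fun ω => (len m k ω : ℝ)) =
      rcE 1 k m (fun ω => (len k m ω : ℝ)))
    (hla : ∃ (c : ℝ) (s : Bool × Bool), 0 < c ∧ ∀ h : ℕ, 1 ≤ h → ∀ (v : Vtx) (S : Finset Edg),
      RE (v.1 - (32 * h : ℕ)) (v.1 + (32 * h : ℕ)) (v.2 - h) (v.2 + h) ⊆ S →
      c * (h : ℝ) ^ (-(1/4) : ℝ) ≤ Pr (fun _ => (1/2 : ℝ)) S (fun F =>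
        (∃ y : Vtx, y.1 = v.1 - (32 * h : ℕ) ∧
          Reach (↑F ∩ ↑(RE (v.1 - (32 * h : ℕ)) (v.1 + h) (v.2 - h) (v.2 + h))) v y) ∧
        ∃ g : Vtx, g.1 = v.1 + (32 * h : ℕ) ∧
          DReach (↑(RE (v.1 - h) (v.1 + (32 * h : ℕ)) (v.2 - h) (v.2 + h) \ F) : Set Edg)
            (cface v s) g)) :
    ∃ c : ℝ, 0 < c ∧ ∀ m k : ℕ, 1 ≤ m → 1 ≤ k →
      c * (max m k : ℕ) * ((min m k : ℕ) : ℝ) ^ (3/4 : ℝ) ≤
        rcE 1 m k (fun ω => (len m k ω : ℝ)) := by
  obtain ⟨c, s, hc, hla⟩ := hla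
  have main : ∀ m k : ℕ, 1 ≤ m → m ≤ k →
      min (c / 4) ((1/2 : ℝ) ^ 70) * k * (m : ℝ) ^ (3/4 : ℝ) ≤
        rcE 1 m k (fun ω => (len m k ω : ℝ)) := by
    intro m k hm hmk
    rw [hlen]
    have h0 : (0 : ℝ) ≤ k * (m : ℝ) ^ (3/4 : ℝ) := by positivity
    rcases lt_or_ge m 64 with h | h
    · refine le_trans ?_ (small hm h)
      rw [mul_assoc, mul_assoc]
      exact mul_le_mul_of_nonneg_right (min_le_right _ _) h0
    · refine le_trans ?_ (large h hmk c hc s hla)
      rw [mul_assoc, mul_assoc]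
      exact mul_le_mul_of_nonneg_right (min_le_left _ _) h0
  refine ⟨min (c / 4) ((1/2 : ℝ) ^ 70), lt_min (by positivity) (by positivity), ?_⟩
  intro m k hm hk
  rcases le_total m k with h | h
  · rw [max_eq_right h, min_eq_left h]
    exact main m k hm h
  · rw [max_eq_left h, min_eq_right h, hsym]
    exact main k m hk h

end H985IL
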