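import Pool.Agent.H985R3.IL.IL0
import Pool.Agent.H934R3.D74.Props

/-!
Length of the interface, part IL4 (helper36): the interface is not much shorter than `n ^ (7/4)`,
with high probability.
-/

set_option autoImplicit false

namespace H985IL

open H974 H973 H12S H985BT H934F H934E Finset

/-! ### the region used at scale `h` -/

/-- vertices -/
noncomputable def IL4_A (h : ℤ) : Finset Vtx :=
  (Finset.Icc (-(7 * h)) (7 * h) ×ˢ Finset.Icc 0 (7 * h)).filter
    (fun y => h ≤ y.2 ∨ y.1 ≤ -(3 * h) - 1)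

theorem IL4_mem_A {h : ℤ} {y : Vtx} : y ∈ IL4_A h ↔
    ((-(7 * h) ≤ y.1 ∧ y.1 ≤ 7 * h) ∧ (0 ≤ y.2 ∧ y.2 ≤ 7 * h)) ∧
      (h ≤ y.2 ∨ y.1 ≤ -(3 * h) - 1) := by
  unfold IL4_A
  rw [Finset.mem_filter, Finset.mem_product, Finset.mem_Icc, Finset.mem_Icc]

theorem IL4_mem_HA2 {h : ℤ} {y : Vtx} : y ∈ HA2 h ↔
    ((-(7 * h) ≤ y.1 ∧ y.1 ≤ 7 * h) ∧ (0 ≤ y.2 ∧ y.2 ≤ 7 * h)) ∧
      (y.1 ≤ -(3 * h) ∨ 3 * h ≤ y.1 ∨ h ≤ y.2) := by
  unfold HA2
  rw [Finset.mem_filter, Finset.mem_product, Finset.mem_Icc, Finset.mem_Icc]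

theorem IL4_mem_core {h : ℤ} {v : Vtx} : v ∈ core h ↔
    (-h ≤ v.1 ∧ v.1 ≤ h) ∧ (3 * h ≤ v.2 ∧ v.2 ≤ 5 * h) := by
  unfold core
  rw [Finset.mem_product, Finset.mem_Icc, Finset.mem_Icc]

theorem IL4_sub (h : ℤ) : ES (IL4_A h) ⊆ H934F.SR h := by
  intro e he
  unfold H934F.SR
  rw [mem_ES] at he ⊢
  obtain ⟨h1, h2⟩ := he
  rw [IL4_mem_A] at h1 h2
  rw [IL4_mem_HA2, IL4_mem_HA2]
  constructor <;> omega

theorem IL4_RE_sub {h a b c d : ℤ} (h1 : -(7 * h) ≤ a) (h2 : b ≤ 7 * h) (h3 : 0 ≤ c)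
    (h4 : d ≤ 7 * h) (h5 : b ≤ -(3 * h) - 1 ∨ h ≤ c) : RE a b c d ⊆ ES (IL4_A h) := by
  apply RE_sub_ES
  intro x y hx1 hx2 hy1 hy2
  rw [IL4_mem_A]
  simp only
  omega

theorem IL4_sdiff {F S T : Finset Edg} (hT : T ⊆ S) : T \ (F ∩ S) = T \ F := by
  ext e
  rw [Finset.mem_sdiff, Finset.mem_sdiff, Finset.mem_inter]
  constructor
  · rintro ⟨h1, h2⟩
    exact ⟨h1, fun h3 => h2 ⟨h3, hT h1⟩⟩
  · rintro ⟨h1, h2⟩
    exact ⟨h1, fun h3 => h2 h3.1⟩

theorem IL4_ArmL {h : ℤ} {v : Vtx} (hv : v ∈ core h) (F : Finset Edg) :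
    ArmL h v F ↔ ArmL h v (F ∩ ES (IL4_A h)) := by
  rw [IL4_mem_core] at hv
  unfold ArmL
  rw [coe_inter_eq (IL4_RE_sub (by omega) (by omega) (by omega) (by omega) (by omega))]

theorem IL4_ArmR {s : Bool × Bool} {h : ℤ} {v : Vtx} (hv : v ∈ core h) (F : Finset Edg) :
    ArmR s h v F ↔ ArmR s h v (F ∩ ES (IL4_A h)) := by
  rw [IL4_mem_core] at hv
  unfold ArmR
  rw [IL4_sdiff (IL4_RE_sub (by omega) (by omega) (by omega) (by omega) (by omega))]

theorem IL4_CL {h : ℤ} (hh : 1 ≤ h) (F : Finset Edg) : CL h F ↔ CL h (F ∩ ES (IL4_A h)) := by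
  unfold CL
  exact TBc_local (TBE_subset_RE.trans (IL4_RE_sub (by omega) (by omega) (by omega) (by omega)
    (by omega)))

theorem IL4_VS (s : Bool × Bool) (h : ℤ) (F : Finset Edg) :
    VS s h F = VS s h (F ∩ ES (IL4_A h)) := by
  classical
  unfold VS
  apply Finset.filter_congr
  intro v hv
  unfold H934F.E2
  rw [← IL4_ArmL hv F, ← IL4_ArmR hv F]

/-- the good event at scale `h` -/
def IL4_G (c0 : ℝ) (s : Bool × Bool) (h : ℤ) (F : Finset Edg) : Prop :=
  CL h F ∧ c0 * (h : ℝ) ^ (7/4 : ℝ) ≤ ((VS s h F).card : ℝ)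

theorem IL4_G_local {c0 : ℝ} {s : Bool × Bool} {h : ℤ} (hh : 1 ≤ h) (F : Finset Edg) :
    IL4_G c0 s h F ↔ IL4_G c0 s h (F ∩ ES (IL4_A h)) := by
  unfold IL4_G
  rw [← IL4_VS s h F, ← IL4_CL hh F]

/-! ### translations -/

theorem IL4_reach {G G' : Set Edg} {t : ℤ} (hG : ∀ e ∈ G, ((e.1 + t, e.2.1, e.2.2) : Edg) ∈ G')
    {u w : Vtx} (h : Reach G u w) : Reach G' (u.1 + t, u.2) (w.1 + t, w.2) := by
  induction h with
  | refl => exact Reach.refl _ _
  | tail _ hs ih =>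
    refine ih.trans (Adj.reach ?_)
    obtain ⟨e, he, hc⟩ := hs
    refine ⟨_, hG e he, ?_⟩
    obtain ⟨x, y, _ | _⟩ := e
    · rcases hc with ⟨rfl, rfl⟩ | ⟨rfl, rfl⟩
      · left; simp
      · right; simp
    · rcases hc with ⟨rfl, rfl⟩ | ⟨rfl, rfl⟩
      · left; simp; ring
      · right; simp; ring

theorem IL4_dreach {G G' : Set Edg} {t : ℤ} (hG : ∀ e ∈ G, ((e.1 + t, e.2.1, e.2.2) : Edg) ∈ G')
    {u w : Vtx} (h : DReach G u w) : DReach G' (u.1 + t, u.2) (w.1 + t, w.2) := by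
  induction h with
  | refl => exact DReach.refl _ _
  | tail _ hs ih =>
    refine ih.trans (DAdj.reach ?_)
    obtain ⟨e, he, hc⟩ := hs
    refine ⟨_, hG e he, ?_⟩
    obtain ⟨x, y, _ | _⟩ := e
    · rcases hc with ⟨rfl, rfl⟩ | ⟨rfl, rfl⟩
      · left; simp; ring
      · right; simp; ring
    · rcases hc with ⟨rfl, rfl⟩ | ⟨rfl, rfl⟩
      · left; simp
      · right; simp

theorem IL4_mem {t : ℤ} {F : Finset Edg} {e : Edg} :
    e ∈ (trl (-t) 0).mp F ↔ ((e.1 + t, e.2.1, e.2.2) : Edg) ∈ F := by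
  obtain ⟨x, y, b⟩ := e
  rw [LSym.mem_mp, trl_φs]
  simp

/-! ### geometry -/

theorem IL4_wired {m k : ℕ} {h : ℤ} (hh : 2 ≤ h) (hm : 12 * h ≤ m) (hk : 12 * h ≤ k)
    {F : Finset Edg} {v : Vtx} (hv : v ∈ core h)
    (hCL : CL h ((trl (-(m - 5 * h)) 0).mp F)) (hA : ArmL h v ((trl (-(m - 5 * h)) 0).mp F)) :
    InWired m k (F ∩ bulk m k) (v.1 + (m - 5 * h), v.2) := by
  rw [IL4_mem_core] at hv
  obtain ⟨⟨v1, v2⟩, v3, v4⟩ := hv
  obtain ⟨y, hy, hyr⟩ := hA
  obtain ⟨x, x', hx, hx', hxr⟩ := hCL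
  set t : ℤ := m - 5 * h with ht
  set Ω : Set Edg := ↑(F ∩ bulk m k) ∪ ↑(wired m k) with hΩ
  have h1 : Reach (Ω ∩ ↑(RE (v.1 - 6 * h + t) (v.1 + 2 * h + t) (v.2 - 2 * h) (v.2 + 2 * h)))
      (v.1 + t, v.2) (y.1 + t, y.2) := by
    refine IL4_reach ?_ hyr
    rintro ⟨a, b, _ | _⟩ ⟨he1, he2⟩
    · rw [Finset.mem_coe, IL4_mem] at he1
      rw [Finset.mem_coe, mem_RE_false] at he2
      simp only at he1 ⊢
      refine ⟨?_, ?_⟩
      · by_cases h0 : a + t = 0
        · right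
          rw [Finset.mem_coe, mem_wired]
          right
          simp only [true_and]
          omega
        · left
          rw [Finset.mem_coe, Finset.mem_inter]
          refine ⟨he1, ?_⟩
          rw [mem_bulk]
          right
          simp only [true_and]
          omega
      · rw [Finset.mem_coe, mem_RE_false]
        omega
    · rw [Finset.mem_coe, IL4_mem] at he1
      rw [Finset.mem_coe, mem_RE_true] at he2
      simp only at he1 ⊢
      refine ⟨?_, ?_⟩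
      · left
        rw [Finset.mem_coe, Finset.mem_inter]
        refine ⟨he1, ?_⟩
        rw [mem_bulk]
        left
        simp only [true_and]
        omega
      · rw [Finset.mem_coe, mem_RE_true]
        omega
  have h2 : Reach (Ω ∩ ↑(RE (-(5 * h) + t) (-(3 * h) - 1 + t) 0 (7 * h)))
      (x + t, 0) (x' + t, 7 * h) := by
    refine IL4_reach (u := (x, 0)) (w := (x', 7 * h)) ?_ hxr
    rintro ⟨a, b, _ | _⟩ ⟨he1, he2⟩
    · rw [Finset.mem_coe, IL4_mem] at he1
      rw [Finset.mem_coe, mem_TBE_false] at he2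
      simp only at he1 ⊢
      refine ⟨?_, ?_⟩
      · left
        rw [Finset.mem_coe, Finset.mem_inter]
        refine ⟨he1, ?_⟩
        rw [mem_bulk]
        right
        simp only [true_and]
        omega
      · rw [Finset.mem_coe, mem_RE_false]
        omega
    · rw [Finset.mem_coe, IL4_mem] at he1
      rw [Finset.mem_coe, mem_TBE_true] at he2
      simp only at he1 ⊢
      refine ⟨?_, ?_⟩
      · left
        rw [Finset.mem_coe, Finset.mem_inter]
        refine ⟨he1, ?_⟩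
        rw [mem_bulk]
        left
        simp only [true_and]
        omega
      · rw [Finset.mem_coe, mem_RE_true]
        omega
  have m1 := cross_meet (F := Ω) (A := v.1 - 6 * h + t) (B := v.1 + 2 * h + t) (C := 0)
      (D := 7 * h) (a := -(5 * h) + t) (b := -(3 * h) - 1 + t) (c := v.2 - 2 * h)
      (d := v.2 + 2 * h)
      (by omega) (by omega) (by omega) (by omega) (by omega) (by omega) h1.symm
      (by simp only; omega) (by simp only; omega) h2 (by simp only; omega) (by simp only; omega)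
  have m2 : Reach (↑(wired m k) : Set Edg) (0, 0) (x + t, 0) :=
    wired_line (by simp only; omega) (Or.inr le_rfl)
  have m3 : Reach Ω (0, 0) (x + t, 0) := m2.mono Set.subset_union_right
  exact (m3.trans (m1.symm.mono Set.inter_subset_left)).trans (h1.symm.mono Set.inter_subset_left)

theorem IL4_free {m k : ℕ} {h : ℤ} (hh : 2 ≤ h) (hm : 12 * h ≤ m) (hk : 12 * h ≤ k)
    {F : Finset Edg} {v : Vtx} {s : Bool × Bool} (hv : v ∈ core h)
    (hA : ArmR s h v ((trl (-(m - 5 * h)) 0).mp F)) :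
    InFree m k (F ∩ bulk m k) (cface (v.1 + (m - 5 * h), v.2) s) := by
  rw [IL4_mem_core] at hv
  obtain ⟨⟨v1, v2⟩, v3, v4⟩ := hv
  obtain ⟨g, hg, hgr⟩ := hA
  set t : ℤ := m - 5 * h with ht
  have hcf : cface (v.1 + t, v.2) s = ((cface v s).1 + t, (cface v s).2) := by
    unfold cface
    simp only [Prod.mk.injEq, and_true]
    split_ifs <;> ring
  have h1 : DReach (↑(RE (v.1 - 2 * h + t) (v.1 + 6 * h + t) (v.2 - 2 * h) (v.2 + 2 * h) \ F) :
      Set Edg) (cface (v.1 + t, v.2) s) (g.1 + t, g.2) := by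
    rw [hcf]
    refine IL4_dreach ?_ hgr
    rintro ⟨a, b, _ | _⟩ he
    · rw [Finset.mem_coe, Finset.mem_sdiff, IL4_mem, mem_RE_false] at he
      rw [Finset.mem_coe, Finset.mem_sdiff, mem_RE_false]
      exact ⟨by simp only; omega, he.2⟩
    · rw [Finset.mem_coe, Finset.mem_sdiff, IL4_mem, mem_RE_true] at he
      rw [Finset.mem_coe, Finset.mem_sdiff, mem_RE_true]
      exact ⟨by simp only; omega, he.2⟩
  have hc0 : (cface (v.1 + t, v.2) s).1 < m := by
    unfold cface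
    simp only
    split_ifs <;> omega
  set G : Set Edg := ↑(bulk m k \ (F ∩ bulk m k)) ∪ ↑(cut m k) with hG
  have key : ∀ z : Vtx, DReach (↑(RE (v.1 - 2 * h + t) (v.1 + 6 * h + t) (v.2 - 2 * h)
      (v.2 + 2 * h) \ F) : Set Edg) (cface (v.1 + t, v.2) s) z →
      (∃ y : ℕ, y ≤ k ∧ DReach G (cface (v.1 + t, v.2) s) ((m : ℤ), (y : ℤ))) ∨
      (z.1 < m ∧ DReach G (cface (v.1 + t, v.2) s) z) := by
    intro z hz
    induction hz with
    | refl => exact Or.inr ⟨hc0, DReach.refl _ _⟩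
    | @tail b c _ hs ih =>
      rcases ih with ih | ⟨ih1, ih2⟩
      · exact Or.inl ih
      · obtain ⟨e, he, hcs⟩ := hs
        rw [Finset.mem_coe, Finset.mem_sdiff] at he
        obtain ⟨he1, he2⟩ := he
        have hadj : e ∈ bulk m k → DAdj G b c := fun hb =>
          ⟨e, Or.inl (Finset.mem_coe.mpr (Finset.mem_sdiff.mpr
            ⟨hb, fun h3 => he2 (Finset.mem_inter.mp h3).1⟩)), hcs⟩
        obtain ⟨x, y, _ | _⟩ := e
        · rw [mem_RE_false] at he1
          simp only [dsrc_false, dtgt_mk] at hcs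
          rcases hcs with ⟨rfl, rfl⟩ | ⟨rfl, rfl⟩
          · have hb : ((x, y, false) : Edg) ∈ bulk m k := by
              rw [mem_bulk]; right; simp only [true_and] at ih1 ⊢; omega
            have hr := ih2.trans (hadj hb).reach
            simp only at ih1
            by_cases hx : x = m
            · left
              refine ⟨y.toNat, by omega, ?_⟩
              have e1 : ((y.toNat : ℕ) : ℤ) = y := by omega
              rw [e1, ← hx]
              exact hr
            · right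
              exact ⟨by simp only; omega, hr⟩
          · have hb : ((x, y, false) : Edg) ∈ bulk m k := by
              rw [mem_bulk]; right; simp only [true_and] at ih1 ⊢; omega
            simp only at ih1
            exact Or.inr ⟨by simp only; omega, ih2.trans (hadj hb).reach⟩
        · rw [mem_RE_true] at he1
          simp only [dsrc_true, dtgt_mk] at hcs
          rcases hcs with ⟨rfl, rfl⟩ | ⟨rfl, rfl⟩
          · have hb : ((x, y, true) : Edg) ∈ bulk m k := by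
              rw [mem_bulk]; left; simp only [true_and] at ih1 ⊢; omega
            exact Or.inr ⟨ih1, ih2.trans (hadj hb).reach⟩
          · have hb : ((x, y, true) : Edg) ∈ bulk m k := by
              rw [mem_bulk]; left; simp only [true_and] at ih1 ⊢; omega
            exact Or.inr ⟨ih1, ih2.trans (hadj hb).reach⟩
  rcases key _ h1 with ⟨y, hy, hr⟩ | ⟨h2, _⟩
  · exact (free_right (F ∩ bulk m k) hy).trans hr.symm
  · simp only at h2
    omega

theorem IL4_len {m k : ℕ} {h : ℤ} (hh : 2 ≤ h) (hm : 12 * h ≤ m) (hk : 12 * h ≤ k)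
    {F : Finset Edg} {s : Bool × Bool} {c0 : ℝ}
    (hG : IL4_G c0 s h ((trl (-(m - 5 * h)) 0).mp F)) :
    c0 * (h : ℝ) ^ (7/4 : ℝ) ≤ (len m k (F ∩ bulk m k) : ℝ) := by
  classical
  obtain ⟨hCL, hc⟩ := hG
  refine hc.trans ?_
  rw [len_eq (Finset.inter_subset_right)]
  set V := VS s h ((trl (-(m - 5 * h)) 0).mp F) with hV
  have hOn : ∀ v ∈ V, On m k (v.1 + (m - 5 * h), v.2) s (F ∩ bulk m k) := by
    intro v hv
    rw [hV] at hv
    unfold VS at hv
    rw [Finset.mem_filter] at hv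
    exact ⟨IL4_wired hh hm hk hv.1 hCL hv.2.1, IL4_free hh hm hk hv.1 hv.2.2⟩
  have h1 : (V.card : ℝ) = ∑ w ∈ V.image (fun v : Vtx => ((v.1 + (m - 5 * h), v.2) : Vtx)),
      ind (On m k w s (F ∩ bulk m k)) := by
    rw [Finset.sum_image]
    · rw [Finset.card_eq_sum_ones, Nat.cast_sum]
      refine Finset.sum_congr rfl fun v hv => ?_
      rw [ind_of (hOn v hv)]
      norm_num
    · intro v _ w _ hvw
      simp only [Prod.mk.injEq] at hvw
      exact Prod.ext (by omega) hvw.2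
  rw [h1]
  have h2 : V.image (fun v : Vtx => ((v.1 + (m - 5 * h), v.2) : Vtx)) ⊆ rect m k := by
    intro w hw
    obtain ⟨v, hv, rfl⟩ := Finset.mem_image.mp hw
    exact IL0_wired_mem Finset.inter_subset_right (hOn v hv).1
  refine (Finset.sum_le_sum_of_subset_of_nonneg h2 (fun _ _ _ => ind_nonneg _)).trans ?_
  refine Finset.sum_le_sum fun v _ => ?_
  exact Finset.single_le_sum (f := fun s => ind (On m k v s (F ∩ bulk m k)))
    (fun _ _ => ind_nonneg _) (Finset.mem_univ s)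

/-! ### probability -/

/-- independence of the scales, abstract form -/
theorem IL4_indep {p : ℝ} (hp : p ≤ 1) (T : ℕ → Finset Edg) (A : ℕ → Finset Edg → Prop)
    (S : Finset Edg) (J : ℕ) (hT : ∀ j < J, T j ⊆ S)
    (hd : ∀ i j, i < j → j < J → Disjoint (T i) (T j))
    (hA : ∀ j < J, ∀ F, A j F ↔ A j (F ∩ T j))
    (hP : ∀ j < J, p ≤ Pr (fun _ => (1/2 : ℝ)) S (A j)) :
    Pr (fun _ => (1/2 : ℝ)) S (fun F => ∀ j < J, ¬ A j F) ≤ (1 - p) ^ J := by
  induction J with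
  | zero =>
    rw [pow_zero]
    exact Pr_le_one okhalf _ _
  | succ J ih =>
    have ih' := ih (fun j hj => hT j (by omega)) (fun i j hij hj => hd i j hij (by omega))
      (fun j hj => hA j (by omega)) (fun j hj => hP j (by omega))
    set U : Finset Edg := (Finset.range J).biUnion T with hU
    have hUS : U ⊆ S := by
      rw [hU, Finset.biUnion_subset]
      intro j hj
      exact hT j (by have := Finset.mem_range.mp hj; omega)
    have hdis : Disjoint U (T J) := by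
      rw [hU, Finset.disjoint_biUnion_left]
      intro j hj
      exact hd j J (Finset.mem_range.mp hj) (by omega)
    have h1 : ∀ F : Finset Edg, F ⊆ S → ((∀ j < J, ¬ A j F) ↔ ∀ j < J, ¬ A j (F ∩ U)) := by
      intro F _
      refine forall_congr' fun j => ?_
      refine forall_congr' fun hj => ?_
      have hsub : T j ⊆ U := by
        rw [hU]
        exact Finset.subset_biUnion_of_mem T (Finset.mem_range.mpr hj)
      rw [hA j (by omega) F, hA j (by omega) (F ∩ U), Finset.inter_assoc,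
        Finset.inter_eq_right.mpr hsub]
    have h2 : ∀ F : Finset Edg, F ⊆ S → (¬ A J F ↔ ¬ A J (F ∩ T J)) := by
      intro F _
      rw [← hA J (by omega) F]
    have h3 : Pr (fun _ => (1/2 : ℝ)) S (fun F => ∀ j < J + 1, ¬ A j F) =
        Pr (fun _ => (1/2 : ℝ)) S (fun F => (∀ j < J, ¬ A j F) ∧ ¬ A J F) := by
      apply Pr_congr
      intro F _
      constructor
      · intro h2
        exact ⟨fun j hj => h2 j (by omega), h2 J (by omega)⟩
      · rintro ⟨h2, h3⟩ j hj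
        rcases Nat.lt_or_ge j J with h4 | h4
        · exact h2 j h4
        · have : j = J := by omega
          subst this
          exact h3
    rw [h3, Pr_indep hUS (hT J (by omega)) hdis h1 h2, pow_succ]
    have h4 : Pr (fun _ => (1/2 : ℝ)) S (fun F => ¬ A J F) ≤ 1 - p := by
      rw [Pr_not]
      have := hP J (by omega)
      linarith
    exact mul_le_mul ih' h4 (Pr_nonneg okhalf _ _) (pow_nonneg (by linarith) _)

theorem IL4_mp_inv (g : LSym) (X : Finset Edg) : g.mp (g.inv.mp X) = X := by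
  ext e
  rw [LSym.mem_mp, LSym.mem_mp]
  simp [LSym.inv]

theorem IL4_mem_inv {t : ℤ} {X : Finset Edg} {e : Edg} :
    e ∈ (trl (-t) 0).inv.mp X ↔ ((e.1 - t, e.2.1, e.2.2) : Edg) ∈ X := by
  obtain ⟨x, y, b⟩ := e
  rw [LSym.mem_mp]
  simp [LSym.inv, sub_eq_add_neg]

/-- many scales: the interface is long with high probability -/
theorem IL4_scales {c0 E0 p : ℝ} {s : Bool × Bool} (hc0 : 0 < c0) (hp1 : p ≤ 1)
    (hG : ∀ h : ℤ, 2 ≤ h → ∀ S : Finset Edg, H934F.SR h ⊆ S → p ≤ Q S (Gd2 c0 E0 1 s h))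
    (m k : ℕ) (u : ℕ) (hu : 2 ≤ u) (J : ℕ) (hJ : ∀ j < J, 12 * (16 ^ j * u) ≤ min m k) :
    Pr (fun _ => (1/2 : ℝ)) (bulk m k) (fun ω => (len m k ω : ℝ) < c0 * (u : ℝ) ^ (7/4 : ℝ)) ≤
      (1 - p) ^ J := by
  classical
  have hpos : ∀ j : ℕ, 2 ≤ 16 ^ j * u := by
    intro j
    have : 1 ≤ 16 ^ j := Nat.one_le_pow _ _ (by norm_num)
    nlinarith
  let h : ℕ → ℤ := fun j => ((16 ^ j * u : ℕ) : ℤ)
  have hh2 : ∀ j, 2 ≤ h j := fun j => by
    show (2 : ℤ) ≤ ((16 ^ j * u : ℕ) : ℤ)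
    exact_mod_cast hpos j
  have hhm : ∀ j < J, 12 * h j ≤ m ∧ 12 * h j ≤ k := fun j hj => by
    have h1 := hJ j hj
    rw [le_min_iff] at h1
    exact ⟨by show (12 : ℤ) * ((16 ^ j * u : ℕ) : ℤ) ≤ m; exact_mod_cast h1.1,
      by show (12 : ℤ) * ((16 ^ j * u : ℕ) : ℤ) ≤ k; exact_mod_cast h1.2⟩
  have hmono : ∀ i j, i < j → 16 * h i ≤ h j := by
    intro i j hij
    show (16 : ℤ) * ((16 ^ i * u : ℕ) : ℤ) ≤ ((16 ^ j * u : ℕ) : ℤ)
    have h1 : 16 ^ (i + 1) ≤ 16 ^ j := Nat.pow_le_pow_right (by norm_num) hij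
    have h2 : 16 * (16 ^ i * u) ≤ 16 ^ j * u := by
      calc 16 * (16 ^ i * u) = 16 ^ (i + 1) * u := by rw [pow_succ]; ring
        _ ≤ 16 ^ j * u := Nat.mul_le_mul_right u h1
    exact_mod_cast h2
  let g : ℕ → LSym := fun j => trl (-(m - 5 * h j)) 0
  let T : ℕ → Finset Edg := fun j => (g j).inv.mp (ES (IL4_A (h j)))
  let S : Finset Edg := bulk m k ∪ (Finset.range J).biUnion (fun j => (g j).inv.mp (H934F.SR (h j)))
  let A : ℕ → Finset Edg → Prop := fun j F => IL4_G c0 s (h j) ((g j).mp F)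
  have hSR : ∀ j < J, (g j).inv.mp (H934F.SR (h j)) ⊆ S := fun j hj =>
    (Finset.subset_biUnion_of_mem (fun j => (g j).inv.mp (H934F.SR (h j)))
      (Finset.mem_range.mpr hj)).trans Finset.subset_union_right
  have hT : ∀ j < J, T j ⊆ S := fun j hj =>
    (LSym.mp_mono (g j).inv (IL4_sub (h j))).trans (hSR j hj)
  have hd : ∀ i j, i < j → j < J → Disjoint (T i) (T j) := by
    intro i j hij hj
    rw [Finset.disjoint_left]
    intro e h1 h2
    have h3 := IL4_mem_inv.mp h1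
    have h4 := IL4_mem_inv.mp h2
    rw [mem_ES] at h3 h4
    have h5 := IL4_mem_A.mp h3.1
    have h6 := IL4_mem_A.mp h4.1
    have h7 := hmono i j hij
    have h8 := hh2 i
    simp only [src_mk] at h5 h6
    omega
  have hA : ∀ j < J, ∀ F, A j F ↔ A j (F ∩ T j) := by
    intro j _ F
    show IL4_G c0 s (h j) ((g j).mp F) ↔ IL4_G c0 s (h j) ((g j).mp (F ∩ T j))
    rw [LSym.mp_inter, IL4_mp_inv]
    exact IL4_G_local (by have := hh2 j; omega) _
  have hP : ∀ j < J, p ≤ Pr (fun _ => (1/2 : ℝ)) S (A j) := by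
    intro j hj
    have h1 : H934F.SR (h j) ⊆ (g j).mp S := by
      have := LSym.mp_mono (g j) (hSR j hj)
      rwa [IL4_mp_inv] at this
    have h2 := hG (h j) (hh2 j) _ h1
    have h3 : Q ((g j).mp S) (Gd2 c0 E0 1 s (h j)) ≤
        Pr (fun _ => (1/2 : ℝ)) ((g j).mp S) (IL4_G c0 s (h j)) := by
      unfold Q
      exact Pr_mono okhalf (fun F _ hF => ⟨hF.1.1, hF.2.1⟩)
    rw [LSym.pr] at h3
    exact h2.trans h3
  have key := IL4_indep hp1 T A S J hT hd hA hP
  refine le_trans ?_ key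
  have hloc : Pr (fun _ => (1/2 : ℝ)) S
      (fun F => (len m k (F ∩ bulk m k) : ℝ) < c0 * (u : ℝ) ^ (7/4 : ℝ)) =
      Pr (fun _ => (1/2 : ℝ)) (bulk m k)
      (fun F => (len m k (F ∩ bulk m k) : ℝ) < c0 * (u : ℝ) ^ (7/4 : ℝ)) := by
    refine Pr_local Finset.subset_union_left fun F _ => ?_
    rw [Finset.inter_assoc, Finset.inter_self]
  have hloc2 : Pr (fun _ => (1/2 : ℝ)) (bulk m k)
      (fun F => (len m k (F ∩ bulk m k) : ℝ) < c0 * (u : ℝ) ^ (7/4 : ℝ)) =
      Pr (fun _ => (1/2 : ℝ)) (bulk m k)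
      (fun ω => (len m k ω : ℝ) < c0 * (u : ℝ) ^ (7/4 : ℝ)) := by
    refine Pr_congr fun F hF => ?_
    rw [Finset.inter_eq_left.mpr hF]
  rw [← hloc2, ← hloc]
  refine Pr_mono okhalf fun F _ hF j hj hAj => ?_
  have h1 := IL4_len (hh2 j) (hhm j hj).1 (hhm j hj).2 hAj
  have h2 : c0 * (u : ℝ) ^ (7/4 : ℝ) ≤ c0 * ((h j : ℤ) : ℝ) ^ (7/4 : ℝ) := by
    refine mul_le_mul_of_nonneg_left ?_ hc0.le
    refine Real.rpow_le_rpow (by positivity) ?_ (by norm_num)
    show (u : ℝ) ≤ (((16 ^ j * u : ℕ) : ℤ) : ℝ)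
    have : u ≤ 16 ^ j * u := Nat.le_mul_of_pos_left u (by positivity)
    exact_mod_cast this
  linarith

/-- the interface is not empty -/
theorem IL4_len_pos {m k : ℕ} {ω : Finset Edg} (hω : ω ⊆ bulk m k) : (1 : ℝ) ≤ (len m k ω : ℝ) := by
  rw [len_eq hω]
  have hv : ((m : ℤ), (0 : ℤ)) ∈ rect m k := by
    rw [IL0_mem_rect]
    simp only
    omega
  have hOn : On m k ((m : ℤ), (0 : ℤ)) (true, true) ω := by
    constructor
    · have h1 : Reach (↑(wired m k) : Set Edg) (0, 0) ((m : ℤ), (0 : ℤ)) :=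
        wired_line (by simp only; omega) (Or.inr le_rfl)
      exact h1.mono Set.subset_union_right
    · exact free_right ω (y := 0) (by omega)
  rw [← ind_of hOn]
  refine le_trans ?_ (Finset.single_le_sum (f := fun v => ∑ s : Bool × Bool, ind (On m k v s ω))
    (fun _ _ => Finset.sum_nonneg fun _ _ => ind_nonneg _) hv)
  exact Finset.single_le_sum (f := fun s => ind (On m k ((m : ℤ), (0 : ℤ)) s ω))
    (fun _ _ => ind_nonneg _) (Finset.mem_univ (true, true))

theorem IL4_exJ (n u : ℕ) (hu : 1 ≤ u) :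
    ∃ J : ℕ, (∀ j < J, 12 * (16 ^ j * u) ≤ n) ∧ n < 12 * (16 ^ J * u) := by
  classical
  have hex : ∃ J : ℕ, n < 12 * (16 ^ J * u) := by
    refine ⟨n, ?_⟩
    have h1 : n < 16 ^ n := Nat.lt_pow_self (by norm_num)
    have h2 : 16 ^ n ≤ 16 ^ n * u := Nat.le_mul_of_pos_right _ hu
    omega
  refine ⟨Nat.find hex, fun j hj => ?_, Nat.find_spec hex⟩
  exact not_lt.1 (Nat.find_min hex hj)

/-- the interface is not much shorter than `n^(7/4)`, with high probability -/
theorem len_tail (hA : St_A) (hL : St_L) (h5 : St_T5) : ∃ C c : ℝ, 0 < C ∧ 0 < c ∧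
    ∀ m k : ℕ, 1 ≤ m → 1 ≤ k → ∀ x : ℝ, 0 < x → x ≤ 1 →
    rcP 1 m k (fun ω => (len m k ω : ℝ) < x * ((min m k : ℕ) : ℝ) ^ (7/4 : ℝ)) ≤ C * x ^ c := by
  obtain ⟨s, c0, E0, p0, hc0, _, hp0, _, hG0⟩ := h5 hA hL 1 (by norm_num) (by norm_num)
  obtain ⟨p, hp, hp2, hpp⟩ : ∃ p : ℝ, 0 < p ∧ p ≤ 1/2 ∧ p ≤ p0 :=
    ⟨min p0 (1/2), lt_min hp0 (by norm_num), min_le_right _ _, min_le_left _ _⟩
  have hG : ∀ h : ℤ, 2 ≤ h → ∀ S : Finset Edg, H934F.SR h ⊆ S → p ≤ Q S (Gd2 c0 E0 1 s h) :=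
    fun h hh S hS => hpp.trans (hG0 h hh S hS)
  set q : ℝ := 1 - p with hq
  have hq0 : 0 < q := by rw [hq]; linarith
  have hq1 : q < 1 := by rw [hq]; linarith
  set c' : ℝ := -Real.log q / Real.log 16 with hc'
  have hl16 : 0 < Real.log 16 := Real.log_pos (by norm_num)
  have hc'0 : 0 < c' := by
    have := Real.log_neg hq0 hq1
    rw [hc']
    exact div_pos (by linarith) hl16
  have h16 : (16 : ℝ) ^ (-c') = q := by
    rw [Real.rpow_def_of_pos (by norm_num), hc']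
    have : Real.log 16 * -(-Real.log q / Real.log 16) = Real.log q := by
      field_simp
    rw [this, Real.exp_log hq0]
  have hqJ : ∀ J : ℕ, q ^ J = ((16 : ℝ) ^ J) ^ (-c') := by
    intro J
    rw [← h16, ← Real.rpow_natCast, ← Real.rpow_natCast, ← Real.rpow_mul (by norm_num),
      ← Real.rpow_mul (by norm_num), mul_comm]
  set K : ℝ := 12 * (c0 ^ (-(4/7) : ℝ) + 3) with hK
  have hK0 : 0 < K := by
    have : 0 < c0 ^ (-(4/7) : ℝ) := Real.rpow_pos_of_pos hc0 _
    rw [hK]; positivity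
  refine ⟨K ^ c', 4/7 * c', Real.rpow_pos_of_pos hK0 _, by positivity, ?_⟩
  intro m k hm hk x hx hx1
  rw [rcP_one]
  set n : ℕ := min m k with hn
  have hn1 : 1 ≤ n := le_min hm hk
  have hn0 : (0 : ℝ) < n := by exact_mod_cast hn1
  rcases le_or_gt (x * (n : ℝ) ^ (7/4 : ℝ)) 1 with hcase | hcase
  · have h0 : P2 (bulk m k) (fun ω => (len m k ω : ℝ) < x * (n : ℝ) ^ (7/4 : ℝ)) = 0 := by
      unfold P2
      rw [Pr_congr (B := fun _ => False)]
      · unfold Pr
        simp only [ind_not_of not_false]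
        exact Ex_const _ _ _
      · intro F hF
        have := IL4_len_pos hF
        constructor
        · intro h; linarith
        · exact False.elim
    rw [h0]
    positivity
  · -- the scales
    set y : ℝ := (x / c0) ^ (4/7 : ℝ) with hy
    have hy0 : 0 < y := Real.rpow_pos_of_pos (div_pos hx hc0) _
    set u : ℕ := ⌈y * n⌉₊ + 2 with hu
    have hu2 : 2 ≤ u := by omega
    have hu1 : y * n ≤ u := by
      have := Nat.le_ceil (y * n)
      rw [hu]; push_cast; linarith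
    have hu3 : (u : ℝ) ≤ y * n + 3 := by
      have := Nat.ceil_lt_add_one (a := y * n) (by positivity)
      rw [hu]; push_cast; linarith
    obtain ⟨J, hJ1, hJ2⟩ := IL4_exJ n u (by omega)
    have h1 := IL4_scales hc0 (by linarith : p ≤ 1) hG m k u hu2 J hJ1
    have h2 : x * (n : ℝ) ^ (7/4 : ℝ) ≤ c0 * (u : ℝ) ^ (7/4 : ℝ) := by
      have h3 : (y * n) ^ (7/4 : ℝ) ≤ (u : ℝ) ^ (7/4 : ℝ) :=
        Real.rpow_le_rpow (by positivity) hu1 (by norm_num)
      have h4 : (y * n) ^ (7/4 : ℝ) = x / c0 * (n : ℝ) ^ (7/4 : ℝ) := by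
        rw [Real.mul_rpow hy0.le hn0.le, hy, ← Real.rpow_mul (div_pos hx hc0).le]
        norm_num
      rw [h4] at h3
      calc x * (n : ℝ) ^ (7/4 : ℝ) = c0 * (x / c0 * (n : ℝ) ^ (7/4 : ℝ)) := by
            field_simp
        _ ≤ c0 * (u : ℝ) ^ (7/4 : ℝ) := mul_le_mul_of_nonneg_left h3 hc0.le
    have h3 : P2 (bulk m k) (fun ω => (len m k ω : ℝ) < x * (n : ℝ) ^ (7/4 : ℝ)) ≤ q ^ J := by
      unfold P2
      exact (Pr_mono okhalf fun F _ hF => lt_of_lt_of_le hF h2).trans h1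
    refine h3.trans ?_
    rw [hqJ]
    have hu0 : (0 : ℝ) < u := by
      have : 0 < u := by omega
      exact_mod_cast this
    have h5 : (n : ℝ) / (12 * u) ≤ (16 : ℝ) ^ J := by
      rw [div_le_iff₀ (by positivity)]
      have : (n : ℝ) < ((12 * (16 ^ J * u) : ℕ) : ℝ) := by exact_mod_cast hJ2
      push_cast at this
      linarith
    have h6 : ((16 : ℝ) ^ J) ^ (-c') ≤ ((n : ℝ) / (12 * u)) ^ (-c') :=
      Real.rpow_le_rpow_of_nonpos (by positivity) h5 (by linarith)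
    refine h6.trans ?_
    have h7 : ((n : ℝ) / (12 * u)) ^ (-c') = (12 * u / n) ^ c' := by
      rw [Real.rpow_neg (by positivity), ← Real.inv_rpow (by positivity), inv_div]
    rw [h7]
    have h8 : 12 * (u : ℝ) / n ≤ K * x ^ (4/7 : ℝ) := by
      have h9 : 1 / (n : ℝ) ≤ x ^ (4/7 : ℝ) := by
        rw [div_le_iff₀ hn0]
        have h10 : (1 : ℝ) ≤ (x * (n : ℝ) ^ (7/4 : ℝ)) ^ (4/7 : ℝ) :=
          Real.one_le_rpow hcase.le (by norm_num)
        rw [Real.mul_rpow hx.le (by positivity), ← Real.rpow_mul hn0.le] at h10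
        norm_num at h10
        exact h10
      have h11 : y = c0 ^ (-(4/7) : ℝ) * x ^ (4/7 : ℝ) := by
        rw [hy, div_eq_mul_inv, Real.mul_rpow hx.le (by positivity), Real.inv_rpow hc0.le,
          Real.rpow_neg hc0.le, mul_comm]
      have h12 : 12 * (u : ℝ) / n ≤ 12 * (y + 3 * (1 / n)) := by
        rw [div_le_iff₀ hn0]
        have : 12 * (y + 3 * (1 / (n : ℝ))) * n = 12 * (y * n + 3) := by field_simp
        rw [this]
        linarith
      refine h12.trans ?_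
      rw [h11, hK]
      nlinarith
    calc (12 * (u : ℝ) / n) ^ c' ≤ (K * x ^ (4/7 : ℝ)) ^ c' :=
          Real.rpow_le_rpow (by positivity) h8 hc'0.le
      _ = K ^ c' * x ^ (4/7 * c') := by
          rw [Real.mul_rpow hK0.le (by positivity), ← Real.rpow_mul hx.le]

end H985IL
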