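import Pool.Agent.H985R3.IL.Defs
import Pool.Agent.H985R2.BT9
import Pool.Agent.H934R3.D74.Props

/-!
Length of the interface, statements with `sorry` (helper985). DO NOT import in final proofs.
-/

set_option autoImplicit false

namespace H985IL

open H974 H985BT H934F H934E Finset

/-! ### IL0 -/

theorem len_eq {m k : ℕ} {ω : Finset Edg} (hω : ω ⊆ bulk m k) :
    (len m k ω : ℝ) = ∑ v ∈ rect m k, ∑ s : Bool × Bool, ind (On m k v s ω) := sorry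

theorem rcE_one (m k : ℕ) (f : Finset Edg → ℝ) :
    rcE 1 m k f = Ex (fun _ => (1/2 : ℝ)) (bulk m k) f := sorry

theorem rcE_len (m k : ℕ) : rcE 1 m k (fun ω => (len m k ω : ℝ)) =
    ∑ v ∈ rect m k, ∑ s : Bool × Bool, Pr (fun _ => (1/2 : ℝ)) (bulk m k) (On m k v s) := sorry

/-- transposition -/
theorem rcE_len_symm (m k : ℕ) : rcE 1 m k (fun ω => (len m k ω : ℝ)) =
    rcE 1 k m (fun ω => (len k m ω : ℝ)) := sorry

/-! ### IL1 -/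

/-- one medial edge -/
theorem on_upper (hA : St_A) : ∃ C : ℝ, 0 < C ∧ ∀ (m k : ℕ) (v : Vtx) (s : Bool × Bool) (d : ℕ),
    1 ≤ d → d ≤ v.1 → d ≤ v.2 → v.1 + d ≤ m → v.2 + d ≤ k →
    Pr (fun _ => (1/2 : ℝ)) (bulk m k) (On m k v s) ≤ C * (d : ℝ) ^ (-(1/4) : ℝ) := sorry

/-- upper bound of the expected length -/
theorem len_upper (hA : St_A) : ∃ C : ℝ, 0 < C ∧ ∀ m k : ℕ, 1 ≤ m → 1 ≤ k →
    rcE 1 m k (fun ω => (len m k ω : ℝ)) ≤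
      C * (max m k : ℕ) * ((min m k : ℕ) : ℝ) ^ (3/4 : ℝ) := sorry

/-! ### IL2 -/

/-- open arm of `v` to the left and dual arm of `cface v s` to the right, of length `L h` -/
def LArm (s : Bool × Bool) (L h : ℕ) (v : Vtx) (F : Finset Edg) : Prop :=
  (∃ y : Vtx, y.1 = v.1 - (L * h : ℕ) ∧
      Reach (↑F ∩ ↑(RE (v.1 - (L * h : ℕ)) (v.1 + h) (v.2 - h) (v.2 + h))) v y) ∧
    ∃ g : Vtx, g.1 = v.1 + (L * h : ℕ) ∧
      DReach (↑(RE (v.1 - h) (v.1 + (L * h : ℕ)) (v.2 - h) (v.2 + h) \ F) : Set Edg) (cface v s) g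

theorem long_arms (hL : St_L) (L : ℕ) (h3 : 3 ≤ L) : ∃ (c : ℝ) (s : Bool × Bool), 0 < c ∧
    ∀ h : ℕ, 1 ≤ h → ∀ (v : Vtx) (S : Finset Edg),
    RE (v.1 - (L * h : ℕ)) (v.1 + (L * h : ℕ)) (v.2 - h) (v.2 + h) ⊆ S →
    c * (h : ℝ) ^ (-(1/4) : ℝ) ≤ Pr (fun _ => (1/2 : ℝ)) S (LArm s L h v) := sorry

/-! ### IL3 -/

theorem len_lower (hL : St_L) : ∃ c : ℝ, 0 < c ∧ ∀ m k : ℕ, 1 ≤ m → 1 ≤ k →
    c * (max m k : ℕ) * ((min m k : ℕ) : ℝ) ^ (3/4 : ℝ) ≤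
      rcE 1 m k (fun ω => (len m k ω : ℝ)) := sorry

/-! ### IL4 -/

/-- the interface is not much shorter than `n^(7/4)`, with high probability -/
theorem len_tail (hA : St_A) (hL : St_L) (h5 : St_T5) : ∃ C c : ℝ, 0 < C ∧ 0 < c ∧
    ∀ m k : ℕ, 1 ≤ m → 1 ≤ k → ∀ x : ℝ, 0 < x → x ≤ 1 →
    rcP 1 m k (fun ω => (len m k ω : ℝ) < x * ((min m k : ℕ) : ℝ) ^ (7/4 : ℝ)) ≤ C * x ^ c := sorry

end H985IL
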